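import Mathlib

/-!
# Exceptional sets: windows and grids
-/

open Filter Topology Set MeasureTheory
open scoped BigOperators ENNReal

namespace Pool.Agent.Y763.PS

lemma strip_meas (h : ℝ) : MeasurableSet {p : ℝ × ℝ | p.1 ≤ p.2 ∧ p.2 ≤ p.1 + h} := by
  apply IsClosed.measurableSet
  exact (isClosed_le continuous_fst continuous_snd).inter
    (isClosed_le continuous_snd (continuous_fst.add continuous_const))

lemma win_eq (B : Set ℝ) (h t : ℝ) :
    volume (B ∩ Icc t (t + h)) = ∫⁻ x in B,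
      {p : ℝ × ℝ | p.1 ≤ p.2 ∧ p.2 ≤ p.1 + h}.indicator (fun _ => (1 : ℝ≥0∞)) (t, x) := by
  have h1 : (fun x : ℝ => {p : ℝ × ℝ | p.1 ≤ p.2 ∧ p.2 ≤ p.1 + h}.indicator
      (fun _ => (1 : ℝ≥0∞)) (t, x)) = (Icc t (t + h)).indicator 1 := by
    funext x
    by_cases hx : x ∈ Icc t (t + h)
    · rw [indicator_of_mem hx, indicator_of_mem (show (t, x) ∈ {p : ℝ × ℝ | p.1 ≤ p.2 ∧
        p.2 ≤ p.1 + h} from hx)]
      rfl
    · rw [indicator_of_notMem hx, indicator_of_notMem (show (t, x) ∉ {p : ℝ × ℝ | p.1 ≤ p.2 ∧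
        p.2 ≤ p.1 + h} from hx)]
  rw [h1, lintegral_indicator_one measurableSet_Icc, Measure.restrict_apply measurableSet_Icc,
    inter_comm]

lemma win_meas (B : Set ℝ) (h : ℝ) :
    Measurable fun t : ℝ => volume (B ∩ Icc t (t + h)) := by
  simp only [win_eq B h]
  exact (measurable_const.indicator (strip_meas h)).lintegral_prod_right'

lemma int_window (B : Set ℝ) (h : ℝ) :
    ∫⁻ t, volume (B ∩ Icc t (t + h)) = ENNReal.ofReal h * volume B := by
  simp only [win_eq B h]
  have hm : Measurable fun p : ℝ × ℝ =>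
      {p : ℝ × ℝ | p.1 ≤ p.2 ∧ p.2 ≤ p.1 + h}.indicator (fun _ => (1 : ℝ≥0∞)) p :=
    measurable_const.indicator (strip_meas h)
  rw [lintegral_lintegral_swap hm.aemeasurable]
  have h1 : ∀ x : ℝ, ∫⁻ t : ℝ, {p : ℝ × ℝ | p.1 ≤ p.2 ∧ p.2 ≤ p.1 + h}.indicator
      (fun _ => (1 : ℝ≥0∞)) (t, x) = ENNReal.ofReal h := by
    intro x
    have h2 : (fun t : ℝ => {p : ℝ × ℝ | p.1 ≤ p.2 ∧ p.2 ≤ p.1 + h}.indicator
        (fun _ => (1 : ℝ≥0∞)) (t, x)) = (Icc (x - h) x).indicator 1 := by
      funext t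
      by_cases hx : t ∈ Icc (x - h) x
      · rw [indicator_of_mem hx, indicator_of_mem (show (t, x) ∈ {p : ℝ × ℝ | p.1 ≤ p.2 ∧
          p.2 ≤ p.1 + h} from ⟨hx.2, by linarith [hx.1]⟩)]
        rfl
      · rw [indicator_of_notMem hx, indicator_of_notMem (show (t, x) ∉ {p : ℝ × ℝ | p.1 ≤ p.2 ∧
          p.2 ≤ p.1 + h} from fun hc => hx ⟨by linarith [hc.2], hc.1⟩)]
    rw [h2, lintegral_indicator_one measurableSet_Icc, Real.volume_Icc]
    congr 1
    ring
  simp only [h1]
  rw [setLIntegral_const]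

/-- Markov's inequality for windows -/
lemma bad_t {B : Set ℝ} {h c v : ℝ} (hh : 0 ≤ h) (hc : 0 < c)
    (hBv : volume B ≤ ENNReal.ofReal v) :
    volume {t : ℝ | ENNReal.ofReal (c * h) < volume (B ∩ Icc t (t + h))} ≤
      ENNReal.ofReal (v / c) := by
  rcases hh.eq_or_lt with h0 | h0
  · subst h0
    have : {t : ℝ | ENNReal.ofReal (c * 0) < volume (B ∩ Icc t (t + 0))} = ∅ := by
      rw [eq_empty_iff_forall_notMem]
      intro t ht
      rw [mem_ofPred_eq, mul_zero, ENNReal.ofReal_zero, add_zero, Icc_self] at ht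
      have h1 : volume (B ∩ {t}) ≤ volume ({t} : Set ℝ) := measure_mono inter_subset_right
      rw [Real.volume_singleton] at h1
      exact absurd (ht.trans_le h1) (lt_irrefl _)
    rw [this, measure_empty]
    exact zero_le
  · have hch : 0 < c * h := mul_pos hc h0
    have h1 := mul_meas_ge_le_lintegral (μ := volume) (win_meas B h) (ENNReal.ofReal (c * h))
    rw [int_window B h] at h1
    have h2 : volume {t : ℝ | ENNReal.ofReal (c * h) < volume (B ∩ Icc t (t + h))} ≤
        volume {t : ℝ | ENNReal.ofReal (c * h) ≤ volume (B ∩ Icc t (t + h))} :=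
      measure_mono fun t ht => by
        rw [mem_ofPred_eq] at ht ⊢
        exact ht.le
    refine h2.trans ?_
    set m := volume {t : ℝ | ENNReal.ofReal (c * h) ≤ volume (B ∩ Icc t (t + h))} with hm
    have h3 : ENNReal.ofReal (c * h) * m ≤ ENNReal.ofReal (c * h) * ENNReal.ofReal (v / c) := by
      refine h1.trans ?_
      rw [← ENNReal.ofReal_mul hch.le]
      calc ENNReal.ofReal h * volume B ≤ ENNReal.ofReal h * ENNReal.ofReal v := by gcongr
        _ = ENNReal.ofReal (h * v) := (ENNReal.ofReal_mul hh).symm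
        _ = ENNReal.ofReal (c * h * (v / c)) := by
          congr 1
          field_simp
    exact (ENNReal.mul_le_mul_iff_right (by simpa using hch) ENNReal.ofReal_ne_top).mp h3

/-- a grid which meets `B` rarely -/
lemma offset {B : Set ℝ} (hB : MeasurableSet B) {A H v : ℝ} (hH : 0 < H) (hv : 0 ≤ v) (J : ℕ)
    (hBv : volume (B ∩ Icc A (A + J * H)) ≤ ENNReal.ofReal v) :
    ∃ τ : ℝ, 0 ≤ τ ∧ τ < H ∧
      ({j : ℕ | j < J ∧ A + τ + j * H ∈ B}.ncard : ℝ) ≤ v / H := by
  classical
  by_contra hcon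
  push Not at hcon
  set f : ℝ → ℝ≥0∞ := fun τ => ∑ j ∈ Finset.range J,
    B.indicator (fun _ => (1 : ℝ≥0∞)) (A + τ + j * H) with hf
  set k : ℕ := ⌊v / H⌋₊ + 1 with hk
  have hkv : v < k * H := by
    rw [← div_lt_iff₀ hH, hk]
    push_cast
    exact Nat.lt_floor_add_one _
  have hcard : ∀ τ : ℝ, ((({j : ℕ | j < J ∧ A + τ + j * H ∈ B}.ncard : ℕ) : ℝ≥0∞)) = f τ := by
    intro τ
    have h1 : {j : ℕ | j < J ∧ A + τ + j * H ∈ B} =
        ((Finset.range J).filter (fun j : ℕ => A + τ + j * H ∈ B) : Finset ℕ) := by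
      ext j
      simp
    rw [h1, Set.ncard_coe_finset, Finset.card_filter, hf]
    push_cast
    apply Finset.sum_congr rfl
    intro j _
    by_cases hj : A + τ + j * H ∈ B
    · rw [if_pos hj, indicator_of_mem hj]
    · rw [if_neg hj, indicator_of_notMem hj]
  have hlow : ∀ τ ∈ Ico (0 : ℝ) H, (k : ℝ≥0∞) ≤ f τ := by
    intro τ hτ
    rw [← hcard τ]
    have h1 := hcon τ hτ.1 hτ.2
    have h2 : k ≤ {j : ℕ | j < J ∧ A + τ + j * H ∈ B}.ncard := by
      rw [hk]
      have h3 := (Nat.floor_lt (by positivity)).mpr h1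
      omega
    exact_mod_cast h2
  have hI1 : (k : ℝ≥0∞) * ENNReal.ofReal H ≤ ∫⁻ τ in Ico (0 : ℝ) H, f τ := by
    calc (k : ℝ≥0∞) * ENNReal.ofReal H = ∫⁻ _τ in Ico (0 : ℝ) H, (k : ℝ≥0∞) := by
          rw [setLIntegral_const, Real.volume_Ico, sub_zero]
      _ ≤ _ := setLIntegral_mono' measurableSet_Ico hlow
  have hI2 : ∫⁻ τ in Ico (0 : ℝ) H, f τ ≤ volume (B ∩ Icc A (A + J * H)) := by
    have hmeas : ∀ j : ℕ, Measurable fun τ : ℝ => B.indicator (fun _ => (1 : ℝ≥0∞))
        (A + τ + j * H) := by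
      intro j
      exact (measurable_const.indicator hB).comp
        ((measurable_const.add measurable_id).add measurable_const)
    rw [hf, lintegral_finsetSum _ (fun j _ => hmeas j)]
    have h1 : ∀ j : ℕ, ∫⁻ τ in Ico (0 : ℝ) H, B.indicator (fun _ => (1 : ℝ≥0∞)) (A + τ + j * H) =
        volume (B ∩ Ico (A + j * H) (A + j * H + H)) := by
      intro j
      have h2 : (fun τ : ℝ => B.indicator (fun _ => (1 : ℝ≥0∞)) (A + τ + j * H)) =
          ((fun τ : ℝ => τ + (A + j * H)) ⁻¹' B).indicator 1 := by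
        funext τ
        have e : A + τ + j * H = τ + (A + j * H) := by ring
        rw [e]
        rfl
      rw [h2, lintegral_indicator_one ((measurable_add_const _) hB),
        Measure.restrict_apply ((measurable_add_const _) hB)]
      have h3 : (fun τ : ℝ => τ + (A + j * H)) ⁻¹' B ∩ Ico 0 H =
          (fun τ : ℝ => τ + (A + j * H)) ⁻¹' (B ∩ Ico (A + j * H) (A + j * H + H)) := by
        ext τ
        simp only [mem_inter_iff, mem_preimage, mem_Ico]
        constructor
        · rintro ⟨a1, a2, a3⟩; exact ⟨a1, by linarith, by linarith⟩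
        · rintro ⟨a1, a2, a3⟩; exact ⟨a1, by linarith, by linarith⟩
      rw [h3, measure_preimage_add_right]
    simp only [h1]
    rw [← measure_biUnion_finset]
    · apply measure_mono
      intro x hx
      rw [mem_iUnion₂] at hx
      obtain ⟨j, hj, hx⟩ := hx
      rw [Finset.mem_range] at hj
      have hj1 : (j : ℝ) + 1 ≤ J := by exact_mod_cast hj
      have hj2 := mul_le_mul_of_nonneg_right hj1 hH.le
      have hj3 : ((j : ℝ) + 1) * H = j * H + H := by ring
      have hj4 : 0 ≤ (j : ℝ) * H := by positivity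
      exact ⟨hx.1, by linarith [hx.2.1], by linarith [hx.2.2]⟩
    · intro i _ j _ hij
      rw [Function.onFun, Set.disjoint_left]
      rintro x ⟨-, h3, h4⟩ ⟨-, h5, h6⟩
      rcases lt_or_gt_of_ne hij with h | h
      · have h7 : (i : ℝ) + 1 ≤ j := by exact_mod_cast h
        have h8 := mul_le_mul_of_nonneg_right h7 hH.le
        have h9 : ((i : ℝ) + 1) * H = i * H + H := by ring
        linarith
      · have h7 : (j : ℝ) + 1 ≤ i := by exact_mod_cast h
        have h8 := mul_le_mul_of_nonneg_right h7 hH.le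
        have h9 : ((j : ℝ) + 1) * H = j * H + H := by ring
        linarith
    · intro j _
      exact hB.inter measurableSet_Ico
  have hfin := (hI1.trans hI2).trans hBv
  rw [← ENNReal.ofReal_natCast, ← ENNReal.ofReal_mul (Nat.cast_nonneg _),
    ENNReal.ofReal_le_ofReal_iff hv] at hfin
  linarith

end Pool.Agent.Y763.PS
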