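import Pool.Agent.Y763.PS.Lower
import Pool.Agent.Y763.PS.Meas

/-!
# From the blocks outside a small set to all intervals
-/

open Complex Filter Topology Set MeasureTheory
open scoped BigOperators ComplexConjugate ENNReal

namespace Pool.Agent.Y763.PS

open H370 Pool.Agent.TH342.CV

lemma sum_blocks (f : ℕ → ℝ) (m M : ℕ) (J : ℕ) :
    ∑ j ∈ Finset.range J, ∑ k ∈ Finset.range M, f (m + j * M + k) =
      ∑ k ∈ Finset.range (J * M), f (m + k) := by
  induction J with
  | zero => simp
  | succ J ih =>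
    rw [Finset.sum_range_succ, ih, Nat.succ_mul, Finset.sum_range_add]
    congr 1
    apply Finset.sum_congr rfl
    intro k _
    congr 1
    ring

/-- the blocks: `q` bounds the truncated count in every block of `M + 1` cells which contains
`[x, x + M w]`, `x ∉ B` -/
theorem blocks {F : ℂ → ℂ} {B : Set ℝ} (hB : MeasurableSet B) {A w K q v : ℝ} (hA : 1 ≤ A)
    (hw : 0 < w) (hK : 0 ≤ K) (hq : K ≤ q) (hv : 0 ≤ v) (N M : ℕ) (hM : 0 < M) (hMN : M ≤ N)
    (hblk : ∀ x : ℝ, A ≤ x → x + M * w ≤ A + N * w → x ∉ B → ∀ A' : ℝ, 1 ≤ A' → A' ≤ x →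
      x ≤ A' + w → q ≤ ∑ k ∈ Finset.range (M + 1),
        min (cnt F (A' + k * w) (A' + (k + 1) * w) : ℝ) K)
    (hBv : volume (B ∩ Icc A (A + N * w)) ≤ ENNReal.ofReal v) :
    (q - K) * (N / M - 2 - v / (M * w)) ≤ ∑ k ∈ Finset.range N,
      min (cnt F (A + k * w) (A + (k + 1) * w) : ℝ) K := by
  classical
  have hM0 : (0 : ℝ) < M := by exact_mod_cast hM
  set H : ℝ := M * w with hH
  have hH0 : 0 < H := by positivity
  set J : ℕ := N / M - 1 with hJ
  have hNM : 1 ≤ N / M := (Nat.one_le_div_iff hM).mpr hMN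
  have hJ1 : J + 1 = N / M := by omega
  have hJM : (J + 1) * M ≤ N := by rw [hJ1]; exact Nat.div_mul_le_self N M
  have hJMr : ((J : ℝ) + 1) * M ≤ N := by exact_mod_cast hJM
  have hJlow : (N : ℝ) / M - 2 ≤ J := by
    have h1 : N < (N / M + 1) * M := by
      have := Nat.lt_succ_iff.mpr (le_refl (N / M))
      exact (Nat.div_lt_iff_lt_mul hM).mp this
    have h2 : (N : ℝ) < ((N / M : ℕ) + 1) * M := by exact_mod_cast h1
    rw [← div_lt_iff₀ hM0] at h2
    have h3 : (((N / M : ℕ)) : ℝ) = J + 1 := by rw [← hJ1]; push_cast; ring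
    rw [h3] at h2
    linarith
  have hJH : ((J : ℝ) + 1) * H ≤ N * w := by
    have := mul_le_mul_of_nonneg_right hJMr hw.le
    calc ((J : ℝ) + 1) * H = ((J : ℝ) + 1) * M * w := by rw [hH]; ring
      _ ≤ _ := this
  have hJH' : ((J : ℝ) + 1) * H = J * H + H := by ring
  obtain ⟨τ, hτ0, hτH, hbad⟩ := offset hB (A := A) hH0 hv J (le_trans (measure_mono (by
    apply inter_subset_inter_right
    apply Icc_subset_Icc_right
    linarith)) hBv)
  set m : ℕ := ⌊τ / w⌋₊ with hm
  have hm1 : (m : ℝ) * w ≤ τ := by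
    have := Nat.floor_le (by positivity : 0 ≤ τ / w)
    rwa [← hm, le_div_iff₀ hw] at this
  have hm2 : τ < m * w + w := by
    have := Nat.lt_floor_add_one (τ / w)
    rw [← hm, div_lt_iff₀ hw] at this
    linarith
  have hmM : m < M := by
    rw [hm, Nat.floor_lt (by positivity), div_lt_iff₀ hw]
    exact hτH
  set f : ℕ → ℝ := fun k => min (cnt F (A + k * w) (A + (k + 1) * w) : ℝ) K with hf
  have hf0 : ∀ k, 0 ≤ f k := fun k => le_min (Nat.cast_nonneg _) hK
  have hfK : ∀ k, f k ≤ K := fun k => min_le_right _ _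
  -- the good blocks
  have hgood : ∀ j ∈ Finset.range J, (if A + τ + j * H ∈ B then 0 else q - K) ≤
      ∑ k ∈ Finset.range M, f (m + j * M + k) := by
    intro j hj
    rw [Finset.mem_range] at hj
    have hj1 : (j : ℝ) + 1 ≤ J := by exact_mod_cast hj
    have hj2 := mul_le_mul_of_nonneg_right hj1 hH0.le
    have hj3 : ((j : ℝ) + 1) * H = j * H + H := by ring
    have hj0 : 0 ≤ (j : ℝ) * H := by positivity
    have hmw : 0 ≤ (m : ℝ) * w := by positivity
    split_ifs with h
    · exact Finset.sum_nonneg fun k _ => hf0 _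
    · have h1 := hblk (A + τ + j * H) (by linarith) (by linarith) h (A + (m * w + j * H))
        (by linarith) (by linarith) (by linarith)
      rw [Finset.sum_range_succ] at h1
      have h2 : ∀ k : ℕ, min (cnt F (A + (m * w + j * H) + k * w)
          (A + (m * w + j * H) + (k + 1) * w) : ℝ) K = f (m + j * M + k) := by
        intro k
        simp only [hf, hH]
        congr 3
        · push_cast; ring
        · push_cast; ring
      rw [Finset.sum_congr rfl (fun k _ => h2 k), h2 M] at h1
      linarith [hfK (m + j * M + M)]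
  have hsum := Finset.sum_le_sum hgood
  rw [sum_blocks f m M J] at hsum
  have hsub : ∑ k ∈ Finset.range (J * M), f (m + k) ≤ ∑ k ∈ Finset.range N, f k := by
    have h1 : ∑ k ∈ Finset.range (m + J * M), f k =
        ∑ k ∈ Finset.range m, f k + ∑ k ∈ Finset.range (J * M), f (m + k) :=
      Finset.sum_range_add _ _ _
    have h2 : ∑ k ∈ Finset.range (m + J * M), f k ≤ ∑ k ∈ Finset.range N, f k := by
      apply Finset.sum_le_sum_of_subset_of_nonneg
      · apply Finset.range_mono
        have h3 : (J + 1) * M = J * M + M := by ring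
        omega
      · intro k _ _; exact hf0 k
    have h3 : 0 ≤ ∑ k ∈ Finset.range m, f k := Finset.sum_nonneg fun k _ => hf0 k
    linarith
  refine le_trans ?_ (hsum.trans hsub)
  -- the number of good blocks
  have hcard : ∑ j ∈ Finset.range J, (if A + τ + j * H ∈ B then 0 else q - K) =
      (J - ({j : ℕ | j < J ∧ A + τ + j * H ∈ B}.ncard : ℝ)) * (q - K) := by
    have h1 : {j : ℕ | j < J ∧ A + τ + j * H ∈ B} =
        ((Finset.range J).filter (fun j : ℕ => A + τ + j * H ∈ B) : Finset ℕ) := by
      ext j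
      simp
    have h2 : ∀ j ∈ Finset.range J, (if A + τ + j * H ∈ B then (0 : ℝ) else q - K) =
        (q - K) - (if A + τ + j * H ∈ B then (1 : ℝ) else 0) * (q - K) := by
      intro j _
      split_ifs <;> ring
    rw [Finset.sum_congr rfl h2, Finset.sum_sub_distrib, ← Finset.sum_mul, Finset.sum_const,
      Finset.card_range, nsmul_eq_mul, h1, Set.ncard_coe_finset, Finset.card_filter]
    push_cast
    ring
  rw [hcard, mul_comm]
  apply mul_le_mul_of_nonneg_right _ (by linarith)
  linarith

end Pool.Agent.Y763.PS
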