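import Pool.Agent.Y763.PS.Lower

/-!
# Tuples of simple critical zeros in every interval of length `T ^ h`
-/

open Complex Filter Topology Set MeasureTheory
open scoped BigOperators ComplexConjugate

namespace Pool.Agent.Y763.PS

open H370 Pool.Agent.TH342.CV

/-- the number of cells -/
lemma cells_number {H w e σ g : ℝ} (hσ : 0 < σ) (hg : 0 < g) (hw : w = g * σ)
    (hH : w ≤ e * H) (hH0 : 0 ≤ H) : ∃ N : ℕ, (N : ℝ) * w ≤ H ∧ H - w ≤ N * w ∧
      (1 - e) * (H / σ) ≤ g * N := by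
  have hw0 : 0 < w := by rw [hw]; positivity
  refine ⟨⌊H / w⌋₊, ?_, ?_, ?_⟩
  · have := Nat.floor_le (by positivity : 0 ≤ H / w)
    rwa [le_div_iff₀ hw0] at this
  · have h1 := Nat.lt_floor_add_one (H / w)
    rw [div_lt_iff₀ hw0] at h1
    have : ((⌊H / w⌋₊ : ℝ) + 1) * w = ⌊H / w⌋₊ * w + w := by ring
    linarith
  · have h1 := Nat.lt_floor_add_one (H / w)
    rw [div_lt_iff₀ hw0] at h1
    have h2 : ((⌊H / w⌋₊ : ℝ) + 1) * w = ⌊H / w⌋₊ * w + w := by ring
    have h3 : (H - w) / σ ≤ ⌊H / w⌋₊ * w / σ :=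
      div_le_div_of_nonneg_right (by linarith) hσ.le
    have h5 : ⌊H / w⌋₊ * w / σ = g * ⌊H / w⌋₊ := by rw [hw]; field_simp
    have h6 : (1 - e) * (H / σ) ≤ (H - w) / σ := by
      rw [mul_div_assoc']
      apply div_le_div_of_nonneg_right _ hσ.le
      have : (1 - e) * H = H - e * H := by ring
      linarith
    linarith

theorem boxes_every (n : ℕ) {h ε : ℝ} (hh : 0 < h) (hh1 : h ≤ 1) (hε : 0 < ε) :
    ∃ L : ℝ, 0 < L ∧ ∃ d : ℝ, 0 < d ∧
    ∀ (F0 : ℂ → ℂ) (F : Fin n → ℂ → ℂ), GoodL F0 → (∀ i, GoodL (F i)) → ∃ T0 : ℝ, 10 ≤ T0 ∧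
      ∀ T : ℝ, T0 ≤ T → ∀ H : ℝ, T ^ h ≤ H → H ≤ T → ∀ α β : Fin n → ℝ,
        (∀ i, 0 ≤ α i ∧ α i + L ≤ β i ∧ β i * (2 * Real.pi / Real.log T) ≤ T ^ (1 + d)) →
        (((n : ℝ) + 1) * (2 - H295Iso.c0 h) * h ^ n - n * h ^ (n + 1) - ε) *
          (∏ i, (β i - α i)) * (H / (2 * Real.pi) * Real.log T) ≤
          ((Box F0 F T H (2 * Real.pi / Real.log T) α β).ncard : ℝ) := by
  classical
  have hpi := Real.pi_pos
  obtain ⟨e, he0, he1, he⟩ := choose_e n h (2 - H295Iso.c0 h) hε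
  obtain ⟨g, hg0, d, hd0, hdh, hcore⟩ := avg_every hh hh1 he0 he1
  refine ⟨3 * g + 2 * g / e, by positivity, d, hd0, fun F0 F hF0 hF => ?_⟩
  obtain ⟨T1, hT1, hc0⟩ := hcore F0 hF0
  choose T2 hT2 hci using fun i => hcore (F i) (hF i)
  -- large `T`
  have htop : Tendsto (fun T : ℝ => T ^ d) atTop atTop := tendsto_rpow_atTop hd0
  obtain ⟨T3, hT3⟩ := (htop.eventually_ge_atTop 2).exists_forall_of_atTop
  have htop2 : Tendsto (fun T : ℝ => T ^ (h - d)) atTop atTop :=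
    tendsto_rpow_atTop (by linarith)
  obtain ⟨T4, hT4⟩ := (htop2.eventually_ge_atTop
    (max (g * (2 * Real.pi)) (g * (2 * Real.pi) / e))).exists_forall_of_atTop
  set TS : ℝ := ∑ i, T2 i with hTS
  refine ⟨max (max T1 TS) (max (max T3 T4) 10), (le_max_right _ _).trans (le_max_right _ _),
    fun T hTT H hH1 hH2 α β hαβ => ?_⟩
  have hTT1 : T1 ≤ T := ((le_max_left _ _).trans (le_max_left _ _)).trans hTT
  have hTTS : TS ≤ T := ((le_max_right _ _).trans (le_max_left _ _)).trans hTT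
  have hTT2 : ∀ i, T2 i ≤ T := by
    intro i
    refine le_trans ?_ hTTS
    exact Finset.single_le_sum (f := T2) (fun j _ => by linarith [hT2 j]) (Finset.mem_univ i)
  have hTd := hT3 T ((((le_max_left _ _).trans (le_max_left _ _)).trans (le_max_right _ _)).trans
    hTT)
  have hTd2 := hT4 T ((((le_max_right _ _).trans (le_max_left _ _)).trans (le_max_right _ _)).trans
    hTT)
  have hT10 : 10 ≤ T := ((le_max_right _ _).trans (le_max_right _ _)).trans hTT
  have hT0 : 0 < T := by linarith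
  have hlog1 : 1 ≤ Real.log T := by
    rw [Real.le_log_iff_exp_le hT0]
    have := Real.exp_one_lt_d9
    linarith
  have hlog : 0 < Real.log T := by linarith
  set σ : ℝ := 2 * Real.pi / Real.log T with hσ
  have hσ0 : 0 < σ := by positivity
  have hw0 : 0 < g * σ := by positivity
  have hwle : g * σ ≤ g * (2 * Real.pi) := by
    rw [hσ]
    apply mul_le_mul_of_nonneg_left _ hg0.le
    exact div_le_self (by positivity) hlog1
  have hH0 : 0 < H := (Real.rpow_pos_of_pos hT0 _).trans_le hH1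
  have hpd : T ^ h = T ^ (h - d) * T ^ d := by
    rw [← Real.rpow_add hT0]; congr 1; ring
  have hHbig : 2 * T ^ (h - d) ≤ H := by
    refine le_trans ?_ hH1
    rw [hpd, mul_comm]
    exact mul_le_mul_of_nonneg_left hTd (Real.rpow_nonneg hT0.le _)
  have hX1 : g * (2 * Real.pi) ≤ T ^ (h - d) := (le_max_left _ _).trans hTd2
  have hX2 : g * (2 * Real.pi) / e ≤ T ^ (h - d) := (le_max_right _ _).trans hTd2
  have hTp : 0 ≤ T ^ (h - d) := Real.rpow_nonneg hT0.le _
  obtain ⟨N, hN1, hN2, hN3⟩ := cells_number (H := H) (e := e) hσ0 hg0 rfl (by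
    rw [div_le_iff₀ he0] at hX2
    have h7 : e * (2 * T ^ (h - d)) ≤ e * H := mul_le_mul_of_nonneg_left hHbig he0.le
    have h8 : 0 ≤ e * T ^ (h - d) := mul_nonneg he0.le hTp
    linarith) hH0.le
  have hX : H / (2 * Real.pi) * Real.log T = H / σ := by rw [hσ]; field_simp
  rw [hX]
  have hNT : T ^ (h - d) ≤ N * (g * σ) := by linarith
  refine box_lower hF0 hF (by linarith) hσ0 hg0 hh he0 he1 α β (fun i => (hαβ i).1)
    (fun i => (hαβ i).2.1) he N hN1 (by positivity) hN3 ?_ ?_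
  · have h := hc0 T hTT1 0 le_rfl (Real.rpow_nonneg hT0.le _) N hNT (hN1.trans hH2)
    simp only [add_zero] at h
    exact h
  · intro i b hb1 hb2
    have h0 : 0 ≤ α i * σ := mul_nonneg (hαβ i).1 hσ0.le
    refine hci i T (hTT2 i) b (h0.trans hb1) ?_ N hNT (hN1.trans hH2)
    linarith [(hαβ i).2.2]

end Pool.Agent.Y763.PS
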