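import Pool.Agent.TH822.AA.Main
import Pool.Agent.Y763.PS.BoxEvery
import Pool.Agent.Y763.PS.Blocks

/-!
# The truncated counts in almost all intervals of length `T ^ η`
-/

open Complex Filter Topology Set MeasureTheory
open scoped BigOperators ComplexConjugate ENNReal

namespace Pool.Agent.Y763.PS

open H370 H370.A2 H295SI Pool.Agent.TH342.CV

/-- the density condition for the zeros of `F` -/
def Alm (F : ℂ → ℂ) : Prop := ∀ τ : ℝ, 0 < τ → τ ≤ 1 → Pool.Agent.TH822.DZ.BZr F τ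

theorem alm_prim {q : ℕ} [NeZero q] (χ : DirichletCharacter ℂ q) (hχ : χ.IsPrimitive) :
    Alm (DirichletCharacter.LFunction χ) := by
  rcases eq_or_ne χ 1 with h | h
  · have hq : q = 1 := by
      rw [h, DirichletCharacter.IsPrimitive, DirichletCharacter.conductor_one] at hχ
      exact hχ.symm
    subst hq
    rw [DirichletCharacter.LFunction_modOne_eq]
    exact Pool.Agent.TH822.AA.bz_z
  · exact Pool.Agent.TH822.AA.bz_d χ hχ h

lemma c0_nonneg {h : ℝ} (hh : 0 < h) : 0 ≤ H295Iso.c0 h := by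
  have h0 : (0 : ℝ) < Real.sqrt 2 := by positivity
  have hR := H793SI.convS _ h0 le_rfl
  have hI : 0 ≤ ∫ α in (0 : ℝ)..1, α * RS (Real.sqrt 2) α :=
    intervalIntegral.integral_nonneg zero_le_one fun α hα => mul_nonneg hα.1 (hR.nonneg α)
  have hR0 := hR.nonneg 0
  unfold H295Iso.c0 H295SI.cR
  positivity

theorem almost_QQ {F : ℂ → ℂ} (hF : GoodL F) (hB : Alm F) (η0 μ ε : ℝ) (hη0 : 0 < η0)
    (hη1 : η0 < 1) (hμ : 0 < μ) (hgap : 2 * μ < 1 + η0) (hε : 0 < ε) :
    ∃ δ : ℝ, 0 < δ ∧ ∃ T0 : ℝ, 10 ≤ T0 ∧ ∀ T : ℝ, T0 ≤ T → ∀ H : ℝ,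
      T ^ η0 ≤ H → H ≤ T / 8 →
      volume {t : ℝ | t ∈ Set.Icc T (2 * T) ∧
        ¬ ((2 - H295Iso.c0 μ - 3 * ε) * (H * Real.log T / (2 * Real.pi)) ≤
          2 * (NN F t (t + H) : ℝ) - QQ F (μ * Real.log T) t (t + H))} ≤
        ENNReal.ofReal (T ^ (1 - δ)) := by
  have h0 : (0 : ℝ) < Real.sqrt 2 := by positivity
  have hR := H793SI.convS _ h0 le_rfl
  have hW := H255SI.winS _ h0 le_rfl
  have hK := H218SI3.kSqS _ h0 le_rfl
  obtain ⟨a, ha, hld⟩ := hF.ld
  set τ : ℝ := η0 / 4 with hτ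
  have hτ0 : 0 < τ := by positivity
  have hμ1 : μ < 1 := by linarith
  obtain ⟨δ, hδ, T0, hT0, h⟩ := Pool.Agent.TH822.AA.almost_up hR hF ha hld hτ0.le
    (hB τ hτ0 (by linarith)) η0 μ ε hη0 hη1 hμ hgap (by nlinarith) hε
  refine ⟨δ, hδ, T0, hT0, fun T hT H hH1 hH2 => (measure_mono ?_).trans (h T hT H hH1 hH2)⟩
  have hT10 : 10 ≤ T := hT0.trans hT
  have hTpos : 0 < T := by linarith
  rintro t ⟨ht1, ht2⟩
  refine ⟨ht1, fun hcon => ht2 ?_⟩
  obtain ⟨h3, h4⟩ := hcon
  have hU : 1 ≤ t := by linarith [ht1.1]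
  set M : ℝ := H * Real.log T / (2 * Real.pi) with hM
  have hPS : PS (RS (Real.sqrt 2)) F t (t + H) (μ * Real.log T) =
      QQG (gS (Real.sqrt 2)) F (μ * Real.log T) t (t + H) := by
    rw [H228SI.qqJJ (gS (Real.sqrt 2)) _ hW hR hK F hF t (t + H) hU (μ * Real.log T)]
    rfl
  rw [hPS, H295Iso.QQG_eq] at h4
  obtain ⟨hNNl, hNNu⟩ := abs_le.mp h3
  have h5 : cR (RS (Real.sqrt 2)) μ = H295Iso.c0 μ := rfl
  rw [h5] at h4
  have h6 : (2 - H295Iso.c0 μ - 3 * ε) * M = 2 * M - M * H295Iso.c0 μ - 3 * (ε * M) := by ring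
  rw [h6]
  linarith

/-- almost all intervals -/
theorem avg_almost {η ε C : ℝ} (hη0 : 0 < η) (hη1 : η < 1) (hε : 0 < ε) (hε1 : ε ≤ 1)
    (hC : 0 ≤ C) :
    ∃ g : ℝ, 0 < g ∧ ∀ F : ℂ → ℂ, GoodL F → Alm F → ∃ δ : ℝ, 0 < δ ∧ ∃ T0 : ℝ, 10 ≤ T0 ∧
      ∀ T : ℝ, T0 ≤ T → ∃ E : Set ℝ, volume E ≤ ENNReal.ofReal (T ^ (1 - δ)) ∧
      ∀ t : ℝ, T ≤ t → t ≤ 2 * T → t ∉ E → ∀ b : ℝ, 0 ≤ b → ∀ N : ℕ,
        T ^ η / 2 ≤ N * (g * (2 * Real.pi / Real.log T)) →
        b ≤ C * (N * (g * (2 * Real.pi / Real.log T))) →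
        b + N * (g * (2 * Real.pi / Real.log T)) ≤ 2 * T →
      (2 - H295Iso.c0 ((1 + η) / 2) - ε) * (g * N) ≤ ∑ k ∈ Finset.range N,
        min (cnt F (t + b + k * (g * (2 * Real.pi / Real.log T)))
          (t + b + (k + 1) * (g * (2 * Real.pi / Real.log T))) : ℝ)
          ((1 + ε) * ((1 + η) / 2 * g)) := by
  classical
  have hpi := Real.pi_pos
  set lam : ℝ := (1 + η) / 2 with hlam
  have hlam0 : 0 < lam := by positivity
  have hlam1 : lam ≤ 1 := by rw [hlam]; linarith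
  -- parameters
  set η1 : ℝ := ε / 24 with hη1'
  have hη10 : 0 < η1 := by rw [hη1']; positivity
  have hη11 : η1 ≤ 1 := by rw [hη1']; linarith
  obtain ⟨R, hR⟩ := cellsum hη10 hη11
  have hR0 : (0 : ℝ) ≤ R := Nat.cast_nonneg R
  set g : ℝ := (2 * R + 3) * 24 / (ε * lam) with hg
  have hg0 : 0 < g := by rw [hg]; positivity
  have hgε : 2 * R + 3 = (lam * g) * (ε / 24) := by rw [hg]; field_simp
  set K : ℝ := (1 + ε) * (lam * g) with hK
  have hK0 : 0 ≤ K := by rw [hK]; positivity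
  have hK2 : K ≤ 2 * g := by
    rw [hK]
    have h1 : lam * g ≤ 1 * g := mul_le_mul_of_nonneg_right hlam1 hg0.le
    calc (1 + ε) * (lam * g) ≤ 2 * (1 * g) := mul_le_mul (by linarith) h1 (by positivity)
          (by norm_num)
      _ = 2 * g := by ring
  refine ⟨g, hg0, fun F hF hAlm => ?_⟩
  set c : ℝ := H295Iso.c0 lam with hc
  have hc0 : 0 ≤ c := c0_nonneg hlam0
  rcases le_or_gt (2 - c - ε) 0 with hneg | hpos
  · refine ⟨1, one_pos, 10, le_rfl, fun T hT => ⟨∅, by simp, fun t _ _ _ b _ N _ _ _ => ?_⟩⟩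
    exact (mul_nonpos_of_nonpos_of_nonneg hneg (by positivity)).trans (sum_min_nonneg hK0 N)
  -- choice of the exponents
  obtain ⟨ρ, hρ0, hρ⟩ : ∃ ρ : ℝ, 0 < ρ ∧ ∀ θ : ℝ, |θ - lam| < ρ →
      H295Iso.c0 θ ≤ c + ε / 8 := by
    have hcont := H295Iso.c0_cont hlam0
    have h1 : ∀ᶠ x in 𝓝 lam, H295Iso.c0 x < c + ε / 8 :=
      hcont.eventually (gt_mem_nhds (by linarith))
    rw [Metric.eventually_nhds_iff] at h1
    obtain ⟨ρ, hρ0, hρ⟩ := h1
    refine ⟨ρ, hρ0, fun θ hθ => ?_⟩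
    exact (hρ (y := θ) (by rw [Real.dist_eq]; exact hθ)).le
  set s : ℝ := min (ρ / 2) (η / 4) with hs
  have hs0 : 0 < s := by rw [hs]; positivity
  have hs1 : s ≤ ρ / 2 := min_le_left _ _
  have hs2 : s ≤ η / 4 := min_le_right _ _
  set μ : ℝ := lam - s with hμ
  set η' : ℝ := η - s with hη'
  have hμ0 : 0 < μ := by rw [hμ, hlam]; linarith
  have hη'0 : 0 < η' := by rw [hη']; linarith
  have hη'1 : η' < 1 := by rw [hη']; linarith
  have hη'η : η' < η := by rw [hη']; linarith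
  have hcμ : H295Iso.c0 μ ≤ c + ε / 8 := by
    apply hρ
    rw [hμ, show lam - s - lam = -s by ring, abs_neg, abs_of_pos hs0]
    linarith
  obtain ⟨δ1, hδ1, T1, hT1, hQ⟩ := almost_QQ hF hAlm η' μ (ε / 40) hη'0 hη'1 hμ0
    (by rw [hμ, hη', hlam]; linarith) (by positivity)
  set ε2 : ℝ := ε / (64 * (C + 1)) with hε2
  have hε20 : 0 < ε2 := by rw [hε2]; positivity
  have hε2C : 2 * ε2 * (C + 1) = ε / 32 := by rw [hε2]; field_simp; ring
  -- large `T`
  have ev1 : ∀ᶠ T : ℝ in atTop, max (max 1 (g * (2 * Real.pi) / (η1 / 2)))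
      (μ * Real.log 2 / s) ≤ Real.log T := Real.tendsto_log_atTop.eventually_ge_atTop _
  have ev2 : ∀ᶠ T : ℝ in atTop, 16 * (g * (2 * Real.pi)) / ε ≤ T ^ η' :=
    (tendsto_rpow_atTop hη'0).eventually_ge_atTop _
  have ev3 : ∀ᶠ T : ℝ in atTop, 2 ^ η' * T ^ η' + g * (2 * Real.pi) ≤ T / 8 := by
    have h1 : ∀ᶠ T : ℝ in atTop, 16 * 2 ^ η' ≤ T ^ (1 - η') :=
      (tendsto_rpow_atTop (by linarith)).eventually_ge_atTop _
    filter_upwards [h1, eventually_ge_atTop (16 * (g * (2 * Real.pi))), eventually_gt_atTop 0]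
      with T h1 h2 h3
    have h4 : T ^ (1 - η') * T ^ η' = T := by
      rw [← Real.rpow_add h3, sub_add_cancel, Real.rpow_one]
    have h5 : 16 * 2 ^ η' * T ^ η' ≤ T ^ (1 - η') * T ^ η' :=
      mul_le_mul_of_nonneg_right h1 (Real.rpow_nonneg h3.le _)
    rw [h4] at h5
    linarith
  have ev4 : ∀ᶠ T : ℝ in atTop, 2 ^ η' * T ^ η' + g * (2 * Real.pi) ≤ ε / 64 * (T ^ η / 2) := by
    have h1 : ∀ᶠ T : ℝ in atTop, 256 / ε * 2 ^ η' ≤ T ^ (η - η') :=
      (tendsto_rpow_atTop (by linarith)).eventually_ge_atTop _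
    have h2 : ∀ᶠ T : ℝ in atTop, 256 / ε * (g * (2 * Real.pi)) ≤ T ^ η :=
      (tendsto_rpow_atTop hη0).eventually_ge_atTop _
    filter_upwards [h1, h2, eventually_gt_atTop 0] with T h1 h2 h3
    have h4 : T ^ (η - η') * T ^ η' = T ^ η := by
      rw [← Real.rpow_add h3, sub_add_cancel]
    have h5 : 256 / ε * 2 ^ η' * T ^ η' ≤ T ^ (η - η') * T ^ η' :=
      mul_le_mul_of_nonneg_right h1 (Real.rpow_nonneg h3.le _)
    rw [h4] at h5
    have h6 := mul_le_mul_of_nonneg_left h5 (by positivity : 0 ≤ ε / 256)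
    have h7 := mul_le_mul_of_nonneg_left h2 (by positivity : 0 ≤ ε / 256)
    have e6 : ε / 256 * (256 / ε * 2 ^ η' * T ^ η') = 2 ^ η' * T ^ η' := by field_simp
    have e7 : ε / 256 * (256 / ε * (g * (2 * Real.pi))) = g * (2 * Real.pi) := by field_simp
    rw [e6] at h6
    rw [e7] at h7
    linarith
  have ev5 : ∀ᶠ T : ℝ in atTop, (2 * Real.log T + 4) * (3 / ε2) ≤ T ^ (δ1 / 2) := by
    have h1 : (fun T : ℝ => Real.log T) =o[atTop] fun T : ℝ => T ^ (δ1 / 2) :=
      isLittleO_log_rpow_atTop (by positivity)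
    have h2 := h1.bound (by positivity : 0 < ε2 / 12)
    have h3 : ∀ᶠ T : ℝ in atTop, 24 / ε2 ≤ T ^ (δ1 / 2) :=
      (tendsto_rpow_atTop (by positivity)).eventually_ge_atTop _
    filter_upwards [h2, h3, eventually_ge_atTop 1] with T h2 h3 h4
    rw [Real.norm_of_nonneg (Real.log_nonneg h4), Real.norm_of_nonneg
      (Real.rpow_nonneg (by linarith) _)] at h2
    have h5 := mul_le_mul_of_nonneg_left h2 (by positivity : 0 ≤ 6 / ε2)
    have e5 : 6 / ε2 * (ε2 / 12 * T ^ (δ1 / 2)) = T ^ (δ1 / 2) / 2 := by field_simp; ring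
    rw [e5] at h5
    have e6 : (2 * Real.log T + 4) * (3 / ε2) = 6 / ε2 * Real.log T + 24 / ε2 / 2 := by
      field_simp; ring
    rw [e6]
    linarith
  have ev6 : ∀ᶠ T : ℝ in atTop, 2 ≤ T ^ η := (tendsto_rpow_atTop hη0).eventually_ge_atTop _
  obtain ⟨T2, hT2⟩ := (((((ev1.and ev2).and ev3).and ev4).and ev5).and ev6).exists_forall_of_atTop
  refine ⟨δ1 / 2, by positivity, max (max T1 T2) 10, le_max_right _ _, fun T hTT => ?_⟩
  have hTT1 : T1 ≤ T := ((le_max_left _ _).trans (le_max_left _ _)).trans hTT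
  have hTT2 : T2 ≤ T := ((le_max_right _ _).trans (le_max_left _ _)).trans hTT
  have hT10 : 10 ≤ T := (le_max_right _ _).trans hTT
  obtain ⟨⟨⟨⟨⟨e1, e2⟩, e3⟩, e4⟩, e5⟩, e6⟩ := hT2 T hTT2
  have hT0 : 0 < T := by linarith
  have hlog1 : 1 ≤ Real.log T := ((le_max_left _ _).trans (le_max_left _ _)).trans e1
  have hlog : 0 < Real.log T := by linarith
  have hlogg : g * (2 * Real.pi) / (η1 / 2) ≤ Real.log T :=
    ((le_max_right _ _).trans (le_max_left _ _)).trans e1
  have hlogs : μ * Real.log 2 / s ≤ Real.log T := (le_max_right _ _).trans e1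
  set σ : ℝ := 2 * Real.pi / Real.log T with hσ
  have hσ0 : 0 < σ := by positivity
  set w : ℝ := g * σ with hw
  have hw0 : 0 < w := by positivity
  have hwle : w ≤ g * (2 * Real.pi) := by
    rw [hw, hσ]
    apply mul_le_mul_of_nonneg_left _ hg0.le
    exact div_le_self (by positivity) hlog1
  have hwη : w ^ 2 ≤ η1 / 2 := by
    have h1 : w ≤ η1 / 2 := by
      rw [hw, hσ, mul_div_assoc', div_le_iff₀ hlog]
      rw [div_le_iff₀ (by positivity)] at hlogg
      linarith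
    have h2 : η1 / 2 ≤ 1 := by linarith
    calc w ^ 2 = w * w := sq w
      _ ≤ (η1 / 2) * 1 := mul_le_mul h1 (h1.trans h2) hw0.le (by linarith)
      _ = η1 / 2 := mul_one _
  -- the block length
  have h2T : (2 * T) ^ η' = 2 ^ η' * T ^ η' := Real.mul_rpow (by norm_num) hT0.le
  have h2T0 : 0 < (2 * T) ^ η' := Real.rpow_pos_of_pos (by linarith) _
  have h1T : T ^ η' ≤ (2 * T) ^ η' := Real.rpow_le_rpow hT0.le (by linarith) hη'0.le
  set M : ℕ := ⌈(2 * T) ^ η' / w⌉₊ with hM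
  have hM1 : (2 * T) ^ η' ≤ M * w := by
    have := Nat.le_ceil ((2 * T) ^ η' / w)
    rwa [← hM, div_le_iff₀ hw0] at this
  have hM2 : M * w ≤ (2 * T) ^ η' + w := by
    have := Nat.ceil_lt_add_one (by positivity : 0 ≤ (2 * T) ^ η' / w)
    rw [← hM, ← sub_lt_iff_lt_add, lt_div_iff₀ hw0] at this
    linarith
  have hMpos : 0 < M := by
    rw [hM, Nat.ceil_pos]; positivity
  have hM0 : (0 : ℝ) < M := by exact_mod_cast hMpos
  have hMε : 16 / ε ≤ M := by
    have h1 : 16 * w / ε ≤ M * w := by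
      calc 16 * w / ε ≤ 16 * (g * (2 * Real.pi)) / ε := by gcongr
        _ ≤ M * w := e2.trans (h1T.trans hM1)
    have h2 : 16 * w / ε = 16 / ε * w := by ring
    rw [h2] at h1
    exact le_of_mul_le_mul_right h1 hw0
  set H : ℝ := M * w with hH
  have hHT : H ≤ T / 8 := by rw [h2T] at hM2; linarith
  have hHη : H ≤ ε / 64 * (T ^ η / 2) := by rw [h2T] at hM2; linarith
  have hHg : H * Real.log T / (2 * Real.pi) = g * M := by
    rw [hH, hw, hσ]; field_simp
  -- the exceptional sets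
  set B1 : Set ℝ := {t : ℝ | t ∈ Set.Icc T (2 * T) ∧
        ¬ ((2 - H295Iso.c0 μ - 3 * (ε / 40)) * (H * Real.log T / (2 * Real.pi)) ≤
          2 * (NN F t (t + H) : ℝ) - QQ F (μ * Real.log T) t (t + H))} with hB1
  set B2 : Set ℝ := {t : ℝ | t ∈ Set.Icc (2 * T) (2 * (2 * T)) ∧
        ¬ ((2 - H295Iso.c0 μ - 3 * (ε / 40)) * (H * Real.log (2 * T) / (2 * Real.pi)) ≤
          2 * (NN F t (t + H) : ℝ) - QQ F (μ * Real.log (2 * T)) t (t + H))} with hB2
  have hvB1 : volume B1 ≤ ENNReal.ofReal (T ^ (1 - δ1)) :=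
    hQ T hTT1 H (h1T.trans hM1) hHT
  have hvB2 : volume B2 ≤ ENNReal.ofReal ((2 * T) ^ (1 - δ1)) :=
    hQ (2 * T) (by linarith) H hM1 (by linarith)
  set B : Set ℝ := toMeasurable volume (B1 ∪ B2) with hB
  have hBm : MeasurableSet B := measurableSet_toMeasurable _ _
  have hTδ0 : 0 ≤ T ^ (1 - δ1) := Real.rpow_nonneg hT0.le _
  have h2δ : (2 * T) ^ (1 - δ1) ≤ 2 * T ^ (1 - δ1) := by
    rw [Real.mul_rpow (by norm_num) hT0.le]
    apply mul_le_mul_of_nonneg_right _ hTδ0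
    calc (2 : ℝ) ^ (1 - δ1) ≤ 2 ^ (1 : ℝ) :=
          Real.rpow_le_rpow_of_exponent_le (by norm_num) (by linarith)
      _ = 2 := Real.rpow_one 2
  have hvB : volume B ≤ ENNReal.ofReal (3 * T ^ (1 - δ1)) := by
    rw [hB, measure_toMeasurable]
    refine (measure_union_le _ _).trans ((add_le_add hvB1 hvB2).trans ?_)
    rw [← ENNReal.ofReal_add hTδ0 (Real.rpow_nonneg (by linarith) _)]
    apply ENNReal.ofReal_le_ofReal
    linarith
  set K0 : ℕ := ⌈2 * Real.log T⌉₊ + 2 with hK0'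
  set E : Set ℝ := ⋃ k ∈ Finset.range (K0 + 1),
    {t : ℝ | ENNReal.ofReal (ε2 * 2 ^ k) < volume (B ∩ Icc t (t + 2 ^ k))} with hE
  refine ⟨E, ?_, fun t ht1 ht2 htE b hb0 N hN1 hbC hbN => ?_⟩
  · -- the measure of `E`
    have h1 : ∀ k ∈ Finset.range (K0 + 1), volume {t : ℝ | ENNReal.ofReal (ε2 * 2 ^ k) <
        volume (B ∩ Icc t (t + 2 ^ k))} ≤ ENNReal.ofReal (3 * T ^ (1 - δ1) / ε2) :=
      fun k _ => bad_t (by positivity) hε20 hvB
    refine (measure_biUnion_finset_le _ _).trans ((Finset.sum_le_sum h1).trans ?_)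
    rw [Finset.sum_const, Finset.card_range, nsmul_eq_mul, ← ENNReal.ofReal_natCast,
      ← ENNReal.ofReal_mul (Nat.cast_nonneg _)]
    apply ENNReal.ofReal_le_ofReal
    have h2 : ((K0 + 1 : ℕ) : ℝ) ≤ 2 * Real.log T + 4 := by
      have := Nat.ceil_lt_add_one (by positivity : 0 ≤ 2 * Real.log T)
      rw [hK0']
      push_cast
      linarith
    calc ((K0 + 1 : ℕ) : ℝ) * (3 * T ^ (1 - δ1) / ε2) ≤
          (2 * Real.log T + 4) * (3 * T ^ (1 - δ1) / ε2) :=
          mul_le_mul_of_nonneg_right h2 (by positivity)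
      _ = ((2 * Real.log T + 4) * (3 / ε2)) * T ^ (1 - δ1) := by ring
      _ ≤ T ^ (δ1 / 2) * T ^ (1 - δ1) := mul_le_mul_of_nonneg_right e5 hTδ0
      _ = T ^ (1 - δ1 / 2) := by rw [← Real.rpow_add hT0]; congr 1; ring
  -- the main part
  set A : ℝ := t + b with hA
  have hNw0 : 0 < (N : ℝ) * w := by
    have : 0 < T ^ η := Real.rpow_pos_of_pos hT0 _
    linarith
  set v : ℝ := 2 * ε2 * (C + 1) * (N * w) with hv
  have hv0 : 0 ≤ v := by rw [hv]; positivity
  have hbNC : b + N * w ≤ (C + 1) * (N * w) := by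
    have : (C + 1) * (N * w) = C * (N * w) + N * w := by ring
    linarith
  have hBv : volume (B ∩ Icc A (A + N * w)) ≤ ENNReal.ofReal v := by
    have hx1 : 1 ≤ b + N * w := by linarith
    obtain ⟨k, hk1, hk2⟩ := exists_nat_pow_near hx1 (by norm_num : (1 : ℝ) < 2)
    have hkK : k + 1 ∈ Finset.range (K0 + 1) := by
      rw [Finset.mem_range]
      have h1 : (2 : ℝ) ^ k ≤ 2 * T := hk1.trans hbN
      have h2 : (k : ℝ) * Real.log 2 ≤ Real.log 2 + Real.log T := by
        rw [← Real.log_pow, ← Real.log_mul (by norm_num) hT0.ne']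
        exact Real.log_le_log (by positivity) h1
      have hl2 := Real.log_two_gt_d9
      have h3 : (k : ℝ) ≤ 2 * Real.log T + 1 := by
        by_contra hcon
        push Not at hcon
        have h4 : (2 * Real.log T + 1) * Real.log 2 < k * Real.log 2 :=
          mul_lt_mul_of_pos_right hcon (by linarith)
        have h8 : 0 ≤ (2 * Real.log 2 - 1) * Real.log T := mul_nonneg (by linarith) hlog.le
        have h9 : (2 * Real.log 2 - 1) * Real.log T =
            (2 * Real.log T + 1) * Real.log 2 - Real.log 2 - Real.log T := by ring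
        linarith
      have h5 := Nat.le_ceil (2 * Real.log T)
      have h6 : (k : ℝ) ≤ ((⌈2 * Real.log T⌉₊ + 1 : ℕ) : ℝ) := by push_cast; linarith
      have h7 : k ≤ ⌈2 * Real.log T⌉₊ + 1 := by exact_mod_cast h6
      omega
    have h1 : ¬ (ENNReal.ofReal (ε2 * 2 ^ (k + 1)) < volume (B ∩ Icc t (t + 2 ^ (k + 1)))) := by
      intro hcon
      apply htE
      rw [hE, mem_iUnion₂]
      exact ⟨k + 1, hkK, hcon⟩
    rw [not_lt] at h1
    refine le_trans (measure_mono ?_) (h1.trans (ENNReal.ofReal_le_ofReal ?_))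
    · apply inter_subset_inter_right
      apply Icc_subset_Icc
      · rw [hA]; linarith
      · rw [hA]; linarith
    · rw [hv]
      have h2 : (2 : ℝ) ^ (k + 1) ≤ 2 * ((C + 1) * (N * w)) := by
        rw [pow_succ]; linarith
      have h3 := mul_le_mul_of_nonneg_left h2 hε20.le
      linarith
  have hT1A : T ≤ A := by rw [hA]; linarith
  have hMN : M ≤ N := by
    have h1 : (M : ℝ) * w ≤ N * w := by
      have h2 : ε / 64 * (T ^ η / 2) ≤ 1 * (T ^ η / 2) :=
        mul_le_mul_of_nonneg_right (by linarith) (by linarith)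
      linarith
    exact_mod_cast le_of_mul_le_mul_right h1 hw0
  have hN0 : (0 : ℝ) < N := by
    have : (M : ℝ) ≤ N := by exact_mod_cast hMN
    linarith
  have hMN64 : (M : ℝ) ≤ ε / 64 * N := by
    have h1 : (M : ℝ) * w ≤ (ε / 64 * N) * w := by
      have h2 : ε / 64 * (T ^ η / 2) ≤ ε / 64 * (N * w) :=
        mul_le_mul_of_nonneg_left hN1 (by positivity)
      calc (M : ℝ) * w ≤ _ := hHη
        _ ≤ ε / 64 * (N * w) := h2
        _ = _ := by ring
    exact le_of_mul_le_mul_right h1 hw0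
  set q : ℝ := (2 - c - ε / 4) * (g * M) with hq
  have hgM0 : 0 < g * M := by positivity
  have hKM : K ≤ ε / 8 * (g * M) := by
    have h1 : ε / 8 * (g * (16 / ε)) ≤ ε / 8 * (g * M) := by gcongr
    have h2 : ε / 8 * (g * (16 / ε)) = 2 * g := by field_simp; ring
    linarith
  have hqK : (2 - c - 3 * ε / 8) * (g * M) ≤ q - K := by
    have : (2 - c - 3 * ε / 8) * (g * M) = q - ε / 8 * (g * M) := by rw [hq]; ring
    linarith
  have ha0 : 0 ≤ 2 - c - 3 * ε / 8 := by linarith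
  have hKq : K ≤ q := by
    have : 0 ≤ (2 - c - 3 * ε / 8) * (g * M) := by positivity
    linarith
  have hblk := blocks (F := F) hBm (A := A) (w := w) (K := K) (q := q) (v := v) (by linarith)
    hw0 hK0 hKq hv0 N M hMpos hMN (by
    intro x hx1 hx2 hxB A' hA'1 hA'x hxA'
    have hxB12 : x ∉ B1 ∪ B2 := fun hcon => hxB (subset_toMeasurable _ _ hcon)
    have hNwT : x + M * w ≤ 4 * T := by
      rw [hA] at hx2
      linarith
    have hMw0 : 0 < (M : ℝ) * w := by positivity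
    have hcellK : ∀ Λ : ℝ, Λ * w / (2 * Real.pi) ≤ lam * g →
        (1 + η1) ^ 2 * (Λ * w / (2 * Real.pi) + (2 * R + 3)) ≤ K := by
      intro Λ hΛ
      refine le_trans ?_ (poly3 hε hε1 (by positivity : 0 ≤ lam * g))
      rw [hgε]
      apply mul_le_mul_of_nonneg_left _ (by positivity)
      linarith
    have hend : x + M * w ≤ A' + ((M + 1 : ℕ) : ℝ) * w := by
      push_cast
      have : ((M : ℝ) + 1) * w = M * w + w := by ring
      linarith
    have hcoef : 2 - c - ε / 4 ≤ 2 - H295Iso.c0 μ - 3 * (ε / 40) := by linarith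
    rcases le_or_gt x (2 * T) with hx | hx
    · have h1 : (2 - H295Iso.c0 μ - 3 * (ε / 40)) * (H * Real.log T / (2 * Real.pi)) ≤
          2 * (NN F x (x + H) : ℝ) - QQ F (μ * Real.log T) x (x + H) := by
        by_contra hcon
        exact hxB12 (Or.inl ⟨⟨by linarith, hx⟩, hcon⟩)
      rw [hHg] at h1
      have h2 := hR F hF x (x + H) A' w (μ * Real.log T) hA'1 hA'x (by positivity) hw0 hwη
        (M + 1) hend K (hcellK _ (by
          have h3 : μ * Real.log T * w / (2 * Real.pi) = μ * g := by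
            rw [hw, hσ]; field_simp
          rw [h3]
          exact mul_le_mul_of_nonneg_right (by rw [hμ]; linarith) hg0.le))
      refine le_trans ?_ (h1.trans h2)
      exact mul_le_mul_of_nonneg_right hcoef hgM0.le
    · have h1 : (2 - H295Iso.c0 μ - 3 * (ε / 40)) * (H * Real.log (2 * T) / (2 * Real.pi)) ≤
          2 * (NN F x (x + H) : ℝ) - QQ F (μ * Real.log (2 * T)) x (x + H) := by
        by_contra hcon
        exact hxB12 (Or.inr ⟨⟨hx.le, by linarith⟩, hcon⟩)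
      have hlog2 : Real.log (2 * T) = Real.log 2 + Real.log T :=
        Real.log_mul (by norm_num) hT0.ne'
      have hl2 : 0 < Real.log 2 := Real.log_pos (by norm_num)
      have hM' : g * M ≤ H * Real.log (2 * T) / (2 * Real.pi) := by
        rw [← hHg]
        gcongr
        linarith
      have h2 := hR F hF x (x + H) A' w (μ * Real.log (2 * T)) hA'1 hA'x
        (mul_pos hμ0 (by rw [hlog2]; linarith)) hw0 hwη
        (M + 1) hend K (hcellK _ (by
          have h3 : μ * Real.log (2 * T) * w / (2 * Real.pi) =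
              (μ * Real.log (2 * T) / Real.log T) * g := by
            rw [hw, hσ]; field_simp
          rw [h3]
          apply mul_le_mul_of_nonneg_right _ hg0.le
          rw [div_le_iff₀ hlog, hlog2]
          rw [div_le_iff₀ hs0] at hlogs
          have h4 : μ * (Real.log 2 + Real.log T) = μ * Real.log 2 + μ * Real.log T := by ring
          have h5 : lam * Real.log T = μ * Real.log T + Real.log T * s := by rw [hμ]; ring
          rw [h4, h5]
          linarith))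
      refine le_trans ?_ (h1.trans h2)
      exact mul_le_mul hcoef hM' hgM0.le (by linarith)) hBv
  refine le_trans ?_ hblk
  -- the final estimate
  have hvM : v / (M * w) = ε / 32 * (N / M) := by
    rw [hv, hε2C]
    field_simp
  have h2M : 2 ≤ ε / 32 * (N / M) := by
    have h1 : ε / 32 * ((N : ℝ) / M) = (ε / 32 * N) / M := by ring
    rw [h1, le_div_iff₀ hM0]
    linarith
  have hY : (1 - ε / 16) * (N / M) ≤ N / M - 2 - v / (M * w) := by
    rw [hvM]
    have : (1 - ε / 16) * ((N : ℝ) / M) = N / M - ε / 32 * (N / M) - ε / 32 * (N / M) := by ring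
    rw [this]
    linarith
  have hNM0 : 0 ≤ (1 - ε / 16) * ((N : ℝ) / M) := mul_nonneg (by linarith) (by positivity)
  have hgN0 : 0 ≤ g * N := by positivity
  calc (2 - c - ε) * (g * N) ≤ ((2 - c - 3 * ε / 8) * (1 - ε / 16)) * (g * N) := by
        apply mul_le_mul_of_nonneg_right _ hgN0
        have h1 : (2 - c - 3 * ε / 8) * (ε / 16) ≤ 2 * (ε / 16) :=
          mul_le_mul_of_nonneg_right (by linarith) (by positivity)
        have h2 : (2 - c - 3 * ε / 8) * (1 - ε / 16) =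
            2 - c - 3 * ε / 8 - (2 - c - 3 * ε / 8) * (ε / 16) := by ring
        rw [h2]
        linarith
    _ = ((2 - c - 3 * ε / 8) * (g * M)) * ((1 - ε / 16) * (N / M)) := by field_simp
    _ ≤ (q - K) * (N / M - 2 - v / (M * w)) :=
        mul_le_mul hqK hY hNM0 (by linarith)

end Pool.Agent.Y763.PS
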