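import Pool.Agent.TH342.CV.Boxes

/-!
# Truncated counts of the simple critical zeros in cells, from the trace inequality
-/

open Complex Filter Topology Set MeasureTheory
open scoped BigOperators ComplexConjugate

namespace Pool.Agent.Y763.PS

open H370 Pool.Agent.TH342.CV

/-- the trace inequality with the test matrices of the cells: the truncated number of simple
critical zeros -/
theorem cellsum {η : ℝ} (hη0 : 0 < η) (hη1 : η ≤ 1) : ∃ R : ℕ, ∀ F : ℂ → ℂ, GoodL F →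
    ∀ U1 U2 A w Λ : ℝ, 1 ≤ A → A ≤ U1 → 0 < Λ → 0 < w → w ^ 2 ≤ η / 2 → ∀ N : ℕ,
      U2 ≤ A + N * w → ∀ K : ℝ, (1 + η) ^ 2 * (Λ * w / (2 * Real.pi) + (2 * R + 3)) ≤ K →
      2 * (NN F U1 U2 : ℝ) - QQ F Λ U1 U2 ≤ ∑ k ∈ Finset.range N,
        min (cnt F (A + k * w) (A + (k + 1) * w) : ℝ) K := by
  classical
  have hpi := Real.pi_pos
  obtain ⟨R, hR⟩ := cell hη0 hη1
  refine ⟨R, fun F hF U1 U2 A w Λ hA hAU hΛ0 hw0 hwη N hN K hKη => ?_⟩
  have hU : 1 ≤ U1 := hA.trans hAU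
  -- the cells
  set c : ℝ → ℕ := fun x => (⌈(x - A) / w⌉ - 1).toNat with hc
  set S := SF F U1 U2 with hS
  have hSb : ∀ x ∈ S, A < x ∧ x ≤ U2 := by
    intro x hx
    have h5 := SF_mem hF hU hx
    exact ⟨by linarith [h5.1], h5.2⟩
  have hcx : ∀ x : ℝ, A < x → A + (c x : ℝ) * w < x ∧ x ≤ A + ((c x : ℝ) + 1) * w := by
    intro x hx
    have h1 : 0 < (x - A) / w := div_pos (by linarith) hw0
    have h2 : 0 < ⌈(x - A) / w⌉ := Int.ceil_pos.mpr h1
    have h3 : ((c x : ℕ) : ℤ) = ⌈(x - A) / w⌉ - 1 := by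
      simp only [hc]
      exact Int.toNat_of_nonneg (by omega)
    have h4 : (c x : ℝ) = (⌈(x - A) / w⌉ : ℝ) - 1 := by
      exact_mod_cast congrArg (fun z : ℤ => (z : ℝ)) h3
    have h5 := Int.le_ceil ((x - A) / w)
    have h6 := Int.ceil_lt_add_one ((x - A) / w)
    rw [h4]
    rw [div_le_iff₀ hw0] at h5
    have h7 : ((⌈(x - A) / w⌉ : ℝ) - 1) < (x - A) / w := by linarith
    rw [lt_div_iff₀ hw0] at h7
    constructor
    · linarith
    · have e : ((⌈(x - A) / w⌉ : ℝ) - 1 + 1) * w = ⌈(x - A) / w⌉ * w := by ring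
      rw [e]; linarith
  have hcell : ∀ k : ℕ, ∀ S' : Finset ℝ, (∀ x ∈ S', A < x ∧ c x = k) →
      ∃ Y : ℝ → ℝ → ℝ, (∀ v : ℝ → ℂ, ∑ x ∈ S', ∑ y ∈ S', Y x y * (conj (v x) * v y).re ≤
          ∑ x ∈ S', ‖v x‖ ^ 2) ∧ (S'.card : ℝ) - YT Λ S' Y ≤ K := by
    intro k S' hS'
    obtain ⟨Y, hY, hYc⟩ := hR Λ (A + k * w) w hΛ0 hw0.le hwη S' (by
      intro x hx
      obtain ⟨h1, h2⟩ := hS' x hx
      have h3 := hcx x h1
      rw [h2] at h3
      exact ⟨h3.1.le, by linarith [h3.2]⟩)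
    refine ⟨Y, hY, hYc.trans (le_trans (le_of_eq ?_) hKη)⟩
    ring
  have hcN : ∀ x ∈ S, A < x ∧ c x < N := by
    intro x hx
    obtain ⟨h1, h2⟩ := hSb x hx
    refine ⟨h1, ?_⟩
    have h3 := (hcx x h1).1
    by_contra hcon
    push Not at hcon
    have h4 : (N : ℝ) ≤ c x := by exact_mod_cast hcon
    have h5 : (N : ℝ) * w ≤ (c x : ℝ) * w := mul_le_mul_of_nonneg_right h4 hw0.le
    linarith
  obtain ⟨Y, hY, hYc⟩ := many2 c (fun x => A < x) hcell N S hcN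
  have htr := (trace_zeros hF hU Λ Y hY).1
  rw [Ns_card hF hU, ← hS] at htr
  have hle : ∑ k ∈ Finset.range N, min ((S.filter (fun x => c x = k)).card : ℝ) K ≤
      ∑ k ∈ Finset.range N, min (cnt F (A + k * w) (A + (k + 1) * w) : ℝ) K := by
    apply Finset.sum_le_sum
    intro k _
    apply min_le_min_right
    have hfin : {x : ℝ | A + k * w < x ∧ x ≤ A + (k + 1) * w ∧ SimpleAt F x}.Finite :=
      simple_finite hF (by
        have : 0 ≤ (k : ℝ) * w := by positivity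
        linarith)
    unfold cnt
    rw [← Set.ncard_coe_finset]
    have hsub : ((S.filter (fun x => c x = k) : Finset ℝ) : Set ℝ) ⊆
        {x : ℝ | A + k * w < x ∧ x ≤ A + (k + 1) * w ∧ SimpleAt F x} := by
      intro x hx
      rw [Finset.mem_coe, Finset.mem_filter] at hx
      have h3 := hcx x (hSb x hx.1).1
      rw [hx.2] at h3
      exact ⟨h3.1, h3.2, SF_simple hF hU hx.1⟩
    exact_mod_cast Set.ncard_le_ncard hsub hfin
  linarith

end Pool.Agent.Y763.PS
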