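import Pool.Agent.Y763.PS.Cells

/-!
# The truncated counts in every interval of length `T ^ h`
-/

open Complex Filter Topology Set MeasureTheory
open scoped BigOperators ComplexConjugate

namespace Pool.Agent.Y763.PS

open H370 Pool.Agent.TH342.CV

lemma poly3 {ε x : ℝ} (hε : 0 < ε) (hε1 : ε ≤ 1) (hx : 0 ≤ x) :
    (1 + ε / 24) ^ 2 * (x + x * (ε / 24)) ≤ (1 + ε) * x := by
  have h1 : (1 + ε / 24) ^ 2 * (x + x * (ε / 24)) = (1 + ε / 24) ^ 3 * x := by ring
  rw [h1]
  exact mul_le_mul_of_nonneg_right ((poly1 hε hε1).trans (by linarith)) hx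

lemma sum_min_nonneg {F : ℂ → ℂ} {A w K : ℝ} (hK : 0 ≤ K) (N : ℕ) :
    0 ≤ ∑ k ∈ Finset.range N, min (cnt F (A + k * w) (A + (k + 1) * w) : ℝ) K :=
  Finset.sum_nonneg fun _ _ => le_min (Nat.cast_nonneg _) hK

/-- every interval -/
theorem avg_every {h ε : ℝ} (hh : 0 < h) (hh1 : h ≤ 1) (hε : 0 < ε) (hε1 : ε ≤ 1) :
    ∃ g : ℝ, 0 < g ∧ ∃ d : ℝ, 0 < d ∧ d < h / 4 ∧ ∀ F : ℂ → ℂ, GoodL F → ∃ T0 : ℝ, 10 ≤ T0 ∧
      ∀ T : ℝ, T0 ≤ T → ∀ b : ℝ, 0 ≤ b → b ≤ T ^ (1 + d) →
      ∀ N : ℕ, T ^ (h - d) ≤ N * (g * (2 * Real.pi / Real.log T)) →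
        N * (g * (2 * Real.pi / Real.log T)) ≤ T →
      (2 - H295Iso.c0 h - ε) * (g * N) ≤ ∑ k ∈ Finset.range N,
        min (cnt F (T + b + k * (g * (2 * Real.pi / Real.log T)))
          (T + b + (k + 1) * (g * (2 * Real.pi / Real.log T))) : ℝ) ((1 + ε) * (h * g)) := by
  classical
  have hpi := Real.pi_pos
  -- parameters
  set η : ℝ := ε / 24 with hη
  have hη0 : 0 < η := by rw [hη]; positivity
  have hη1 : η ≤ 1 := by rw [hη]; linarith
  obtain ⟨R, hR⟩ := cellsum hη0 hη1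
  have hR0 : (0 : ℝ) ≤ R := Nat.cast_nonneg R
  set g : ℝ := (2 * R + 3) * 24 / (ε * h) with hg
  have hg0 : 0 < g := by rw [hg]; positivity
  have hgε : 2 * R + 3 = (h * g) * (ε / 24) := by rw [hg]; field_simp
  -- choice of the exponent
  obtain ⟨ρ, hρ0, hρ⟩ : ∃ ρ : ℝ, 0 < ρ ∧ ∀ θ : ℝ, |θ - h| < ρ →
      H295Iso.c0 θ ≤ H295Iso.c0 h + ε / 8 := by
    have hcont := H295Iso.c0_cont hh
    have h1 : ∀ᶠ x in 𝓝 h, H295Iso.c0 x < H295Iso.c0 h + ε / 8 :=
      hcont.eventually (gt_mem_nhds (by linarith))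
    rw [Metric.eventually_nhds_iff] at h1
    obtain ⟨ρ, hρ0, hρ⟩ := h1
    refine ⟨ρ, hρ0, fun θ hθ => ?_⟩
    exact (hρ (y := θ) (by rw [Real.dist_eq]; exact hθ)).le
  set d0 : ℝ := min (ρ / 3) (h / 3) with hd0
  have hd00 : 0 < d0 := by rw [hd0]; positivity
  have hd01 : d0 ≤ h / 3 := min_le_right _ _
  have hd02 : d0 ≤ ρ / 3 := min_le_left _ _
  have hcθ : H295Iso.c0 (h - d0 - d0) ≤ H295Iso.c0 h + ε / 8 := by
    apply hρ
    rw [show h - d0 - d0 - h = -(2 * d0) by ring, abs_neg, abs_of_pos (by linarith)]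
    linarith
  set d : ℝ := d0 / 4 with hd
  have hdpos : 0 < d := by rw [hd]; positivity
  have hd4 : d0 = 4 * d := by rw [hd]; ring
  refine ⟨g, hg0, d, hdpos, by linarith, fun F hF => ?_⟩
  set η' : ℝ := ε / 200 with hη'
  have hη'0 : 0 < η' := by rw [hη']; positivity
  obtain ⟨T1, hT1, hPC⟩ := H295Iso.pairShort hF (h - d0) d0 η' hd00 (by linarith) (by linarith)
    hη'0
  -- large `T`
  have htop : Tendsto (fun T : ℝ => T ^ d) atTop atTop := tendsto_rpow_atTop hdpos
  obtain ⟨T2, hT2⟩ := (htop.eventually_ge_atTop 2).exists_forall_of_atTop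
  obtain ⟨T3, hT3⟩ := (Real.tendsto_log_atTop.eventually_ge_atTop
    (max 1 (g * (2 * Real.pi) / (η / 2)))).exists_forall_of_atTop
  refine ⟨max (max T1 T2) (max T3 10), (le_max_right _ _).trans (le_max_right _ _),
    fun T hTT b hb0 hbT N hN1 hN2 => ?_⟩
  have hTT1 : T1 ≤ T := ((le_max_left _ _).trans (le_max_left _ _)).trans hTT
  have hTd := hT2 T (((le_max_right _ _).trans (le_max_left _ _)).trans hTT)
  have hTT3 := hT3 T (((le_max_left _ _).trans (le_max_right _ _)).trans hTT)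
  have hT10 : 10 ≤ T := ((le_max_right _ _).trans (le_max_right _ _)).trans hTT
  have hT0 : 0 < T := by linarith
  have hlog1 : 1 ≤ Real.log T := (le_max_left _ _).trans hTT3
  have hlog : 0 < Real.log T := by linarith
  have hlogg : g * (2 * Real.pi) / (η / 2) ≤ Real.log T := (le_max_right _ _).trans hTT3
  set K : ℝ := (1 + ε) * (h * g) with hK
  have hK0 : 0 ≤ K := by rw [hK]; positivity
  rcases le_or_gt (2 - H295Iso.c0 h - ε) 0 with hneg | hpos
  · exact (mul_nonpos_of_nonpos_of_nonneg hneg (by positivity)).trans (sum_min_nonneg hK0 N)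
  set σ : ℝ := 2 * Real.pi / Real.log T with hσ
  have hσ0 : 0 < σ := by positivity
  set w : ℝ := g * σ with hw
  have hw0 : 0 < w := by positivity
  set H : ℝ := N * w with hH
  -- the shifted interval
  set T' : ℝ := T + b with hT'
  have hTT' : T ≤ T' := by rw [hT']; linarith
  have hTa : T' ≤ T ^ (1 + 2 * d) := by
    have h1 : T ≤ T ^ (1 + d) := by
      conv_lhs => rw [← Real.rpow_one T]
      exact Real.rpow_le_rpow_of_exponent_le (by linarith) (by linarith)
    have h2 : T ^ (1 + 2 * d) = T ^ (1 + d) * T ^ d := by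
      rw [← Real.rpow_add hT0]; congr 1; ring
    rw [h2, hT']
    have h3 : 0 ≤ T ^ (1 + d) := Real.rpow_nonneg hT0.le _
    have h4 : T ^ (1 + d) * 2 ≤ T ^ (1 + d) * T ^ d := mul_le_mul_of_nonneg_left hTd h3
    linarith
  have hdh : d * h ≤ d := by
    calc d * h ≤ d * 1 := mul_le_mul_of_nonneg_left hh1 hdpos.le
      _ = d := mul_one d
  have hdd : 0 ≤ d * d := by positivity
  have hpow : T' ^ (h - d0) ≤ H := by
    refine le_trans ?_ hN1
    calc T' ^ (h - d0) ≤ (T ^ (1 + 2 * d)) ^ (h - d0) :=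
          Real.rpow_le_rpow (by linarith) hTa (by linarith)
      _ = T ^ ((1 + 2 * d) * (h - d0)) := by rw [← Real.rpow_mul hT0.le]
      _ ≤ T ^ (h - d) := by
          apply Real.rpow_le_rpow_of_exponent_le (by linarith)
          rw [hd4]
          have e : (1 + 2 * d) * (h - 4 * d) = h - 4 * d + 2 * (d * h) - 8 * (d * d) := by ring
          rw [e]; linarith
  have hlogT' : Real.log T ≤ Real.log T' := Real.log_le_log hT0 hTT'
  have hlogT'2 : Real.log T' ≤ (1 + 2 * d) * Real.log T := by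
    rw [← Real.log_rpow hT0]
    exact Real.log_le_log (by linarith) hTa
  have hlog' : 0 < Real.log T' := by linarith
  obtain ⟨U1, U2, hU1, hU1', hU2, hU2', hNN, hQQ⟩ := hPC T' (by linarith) H hpow (by linarith)
  have hH0 : 0 ≤ H := by rw [hH]; positivity
  set M : ℝ := H / (2 * Real.pi) * Real.log T' with hM
  have hM0 : 0 ≤ M := by positivity
  have hM1 : H * Real.log T' / (2 * Real.pi) = M := by rw [hM]; ring
  have hM2 : H * Real.log T' = 2 * Real.pi * M := by rw [hM]; field_simp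
  rw [hM1] at hNN hQQ
  rw [hM2] at hNN
  have hMg : g * N ≤ M := by
    have e : g * N = H / (2 * Real.pi) * Real.log T := by
      rw [hH, hw, hσ]; field_simp
    rw [e, hM]
    exact mul_le_mul_of_nonneg_left hlogT' (by positivity)
  have hU : 1 ≤ U1 := by linarith
  set Λ : ℝ := (h - d0 - d0) * Real.log T' with hΛ
  have hΛ0 : 0 < Λ := mul_pos (by linarith) hlog'
  have hwη : w ^ 2 ≤ η / 2 := by
    have h1 : w ≤ η / 2 := by
      rw [hw, hσ, mul_div_assoc', div_le_iff₀ hlog]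
      rw [div_le_iff₀ (by positivity)] at hlogg
      linarith
    have h2 : η / 2 ≤ 1 := by linarith
    calc w ^ 2 = w * w := sq w
      _ ≤ (η / 2) * 1 := mul_le_mul h1 (h1.trans h2) hw0.le (by linarith)
      _ = η / 2 := mul_one _
  have hΛw : Λ * w / (2 * Real.pi) ≤ h * g := by
    have h1 : Λ ≤ h * Real.log T := by
      rw [hΛ]
      calc (h - d0 - d0) * Real.log T' ≤ (h - d0 - d0) * ((1 + 2 * d) * Real.log T) :=
            mul_le_mul_of_nonneg_left hlogT'2 (by linarith)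
        _ = ((h - d0 - d0) * (1 + 2 * d)) * Real.log T := by ring
        _ ≤ h * Real.log T := by
            apply mul_le_mul_of_nonneg_right _ hlog.le
            rw [hd4]
            have e : (h - 4 * d - 4 * d) * (1 + 2 * d) = h - 8 * d + 2 * (d * h) - 16 * (d * d) := by
              ring
            rw [e]; linarith
    have h2 : h * Real.log T * w / (2 * Real.pi) = h * g := by
      rw [hw, hσ]; field_simp
    rw [← h2]
    apply div_le_div_of_nonneg_right _ (by positivity)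
    exact mul_le_mul_of_nonneg_right h1 hw0.le
  have hKη : (1 + η) ^ 2 * (Λ * w / (2 * Real.pi) + (2 * R + 3)) ≤ K := by
    refine le_trans ?_ (poly3 hε hε1 (by positivity : 0 ≤ h * g))
    rw [hgε]
    apply mul_le_mul_of_nonneg_left _ (by positivity)
    linarith
  have hmain := hR F hF U1 U2 T' w Λ (by linarith) hU1 hΛ0 hw0 hwη N hU2' K hKη
  refine le_trans ?_ hmain
  -- the numbers
  have h2 := (abs_le.mp hNN).1
  have hpi4 := Real.pi_lt_d2
  have h9 : M * (H295Iso.c0 (h - d0 - d0) + η') ≤ M * (H295Iso.c0 h + ε / 8 + η') :=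
    mul_le_mul_of_nonneg_left (by linarith) hM0
  have h11 : η' * (2 * Real.pi * M) ≤ ε / 25 * M := by
    have : η' * (2 * Real.pi * M) = (η' * (2 * Real.pi)) * M := by ring
    rw [this]
    apply mul_le_mul_of_nonneg_right _ hM0
    rw [hη']
    norm_num at hpi4
    have := mul_le_mul_of_nonneg_left hpi4.le hε.le
    linarith
  have h12 : M * (H295Iso.c0 h + ε / 8 + η') =
      H295Iso.c0 h * M + (ε / 8) * M + (ε / 200) * M := by
    rw [hη']; ring
  have h13 : (2 - H295Iso.c0 h - ε / 4) * M = 2 * M - H295Iso.c0 h * M - (ε / 4) * M := by ring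
  have h14 : (ε / 4) * M = (ε / 8) * M + (ε / 200) * M + 2 * ((ε / 25) * M) + (1 / 25) * (ε * M)
      := by ring
  have h16 : 0 ≤ ε * M := by positivity
  have hsum : (2 - H295Iso.c0 h - ε / 4) * M ≤ 2 * (NN F U1 U2 : ℝ) - QQ F Λ U1 U2 := by
    rw [h13]
    linarith
  refine le_trans ?_ hsum
  calc (2 - H295Iso.c0 h - ε) * (g * N) ≤ (2 - H295Iso.c0 h - ε) * M :=
        mul_le_mul_of_nonneg_left hMg hpos.le
    _ ≤ (2 - H295Iso.c0 h - ε / 4) * M := mul_le_mul_of_nonneg_right (by linarith) hM0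

end Pool.Agent.Y763.PS
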