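import Pool.Agent.Y763.PS.Lower
import Pool.Agent.TH342.CV.Levels

/-!
# From the truncated counts to the number of tuples of distinct zeros
-/

open Complex Filter Topology Set MeasureTheory
open scoped BigOperators ComplexConjugate

namespace Pool.Agent.Y763.PS

open H370 Pool.Agent.TH342.CV

/-- the number of tuples of distinct zeros, from the truncated counts -/
theorem lev_lower {n r m : ℕ} (c : Fin n → Fin r)
    (hc : ∀ j, (Finset.univ.filter (fun i => c i = j)).card ≤ m) (hm : 1 ≤ m)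
    {F0 : ℂ → ℂ} {F : Fin r → ℂ → ℂ} (hF0 : GoodL F0)
    (hF : ∀ j, GoodL (F j)) {A H σ g κ e p0 X Q : ℝ} (hA : 1 ≤ A) (hσ0 : 0 < σ) (hg0 : 0 < g)
    (hκ : 0 < κ) (he0 : 0 < e) (he1 : e ≤ 1) (α β : Fin r → ℝ) (hα : ∀ j, 0 ≤ α j)
    (hL : ∀ j, α j + (3 * g + 2 * g / e + n / (e * κ)) ≤ β j)
    (hQ0 : 0 < Q) (hQ : Q ≤ ((r : ℝ) + 1) * ((p0 - e) / ((1 + e) * κ)) - r - r * e)
    (N : ℕ) (hNpos : 0 < N) (hN : N * (g * σ) ≤ H) (hX : 0 ≤ X) (hXN : (1 - e) * X ≤ g * N)
    (h0 : (p0 - e) * (g * N) ≤ ∑ k ∈ Finset.range N,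
      min (cnt F0 (A + k * (g * σ)) (A + (k + 1) * (g * σ)) : ℝ) ((1 + e) * (κ * g)))
    (hi : ∀ j, ∀ b : ℝ, α j * σ ≤ b → b + g * σ ≤ β j * σ → (p0 - e) * (g * N) ≤
      ∑ k ∈ Finset.range N, min (cnt (F j) (A + b + k * (g * σ)) (A + b + (k + 1) * (g * σ)) : ℝ)
        ((1 + e) * (κ * g))) :
    Q ^ m * (κ ^ (n + 1) * (1 - e) ^ (n + 1)) * (∏ i, (β (c i) - α (c i))) * X ≤
      ((Lev F0 (fun i => F (c i)) A H σ (fun i => α (c i)) (fun i => β (c i))).ncard : ℝ) := by
  classical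
  set w : ℝ := g * σ with hw
  have hw0 : 0 < w := by positivity
  set K : ℝ := (1 + e) * (κ * g) with hK
  have hK0 : 0 < K := by rw [hK]; positivity
  have hgK : κ * g ≤ K := by
    rw [hK]
    have : 0 ≤ e * (κ * g) := by positivity
    linarith
  have hge : 0 < 2 * g / e := by positivity
  have hne : 0 ≤ (n : ℝ) / (e * κ) := by positivity
  have hNr : (0 : ℝ) < N := by exact_mod_cast hNpos
  have hr0 : (0 : ℝ) ≤ r := Nat.cast_nonneg r
  set b : Fin r → ℝ := fun i => α i * σ + w with hb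
  have hb0 : ∀ i, 0 ≤ b i := fun i => by
    have := mul_nonneg (hα i) hσ0.le
    simp only [hb]; linarith
  set J : Fin r → ℕ := fun i => ⌊(β i - α i) / g⌋₊ - 1 with hJ
  have hfl : ∀ i, 3 ≤ ⌊(β i - α i) / g⌋₊ := by
    intro i
    apply Nat.le_floor
    rw [le_div_iff₀ hg0]
    have := hL i
    push_cast
    linarith
  have hJ1 : ∀ i, ((J i : ℝ) + 1) * g ≤ β i - α i := by
    intro i
    have h1 : (J i : ℝ) + 1 = ⌊(β i - α i) / g⌋₊ := by
      have h2 : J i + 1 = ⌊(β i - α i) / g⌋₊ := by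
        have := hfl i
        simp only [hJ]; omega
      exact_mod_cast congrArg (Nat.cast : ℕ → ℝ) h2
    rw [h1, ← le_div_iff₀ hg0]
    apply Nat.floor_le
    apply div_nonneg _ hg0.le
    have := hL i
    linarith
  have hJ2 : ∀ i, β i - α i - 2 * g ≤ (J i : ℝ) * g := by
    intro i
    have h1 : (J i : ℝ) + 1 = ⌊(β i - α i) / g⌋₊ := by
      have h2 : J i + 1 = ⌊(β i - α i) / g⌋₊ := by
        have := hfl i
        simp only [hJ]; omega
      exact_mod_cast congrArg (Nat.cast : ℕ → ℝ) h2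
    have h3 := Nat.lt_floor_add_one ((β i - α i) / g)
    rw [← h1, div_lt_iff₀ hg0] at h3
    have h4 : ((J i : ℝ) + 1 + 1) * g = J i * g + 2 * g := by ring
    linarith
  have hJpos : ∀ i, (1 : ℝ) ≤ J i := by
    intro i
    have h2 : 1 ≤ J i := by
      have := hfl i
      simp only [hJ]; omega
    exact_mod_cast h2
  have hJK0 : ∀ i, 0 < (J i : ℝ) * K := fun i => mul_pos (by linarith [hJpos i]) hK0
  have hJKn : ∀ i, (n : ℝ) ≤ e * ((J i : ℝ) * K) := by
    intro i
    have h1 : (J i : ℝ) * (κ * g) ≤ J i * K := mul_le_mul_of_nonneg_left hgK (Nat.cast_nonneg _)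
    have h2 := hJ2 i
    have h3 := hL i
    have h4 : n / (e * κ) ≤ (J i : ℝ) * g := by linarith
    have h5 : (n : ℝ) = (e * κ) * (n / (e * κ)) := by field_simp
    calc (n : ℝ) = (e * κ) * (n / (e * κ)) := h5
      _ ≤ (e * κ) * ((J i : ℝ) * g) := mul_le_mul_of_nonneg_left h4 (by positivity)
      _ = e * ((J i : ℝ) * (κ * g)) := by ring
      _ ≤ e * ((J i : ℝ) * K) := mul_le_mul_of_nonneg_left h1 he0.le
  -- the counting
  have hcount := lev_count (n := n) (F0 := F0) (F := fun i => F (c i)) (T := A) hw0 N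
    (fun i => b (c i)) (fun i => J (c i))
    (lev_finite hF0 (fun i => hF (c i)) (T := A) (H := H) (σ := σ) (α := fun i => α (c i))
      (β := fun i => β (c i)) hA hσ0.le (fun i => hα (c i))) (by
    intro k hk x0 h1 h2 h3 x hxi hx
    have hk1 : (k : ℝ) + 1 ≤ N := by exact_mod_cast hk
    have hkw := mul_le_mul_of_nonneg_right hk1 hw0.le
    have hkk : ((k : ℝ) + 1) * w = k * w + w := by ring
    have hk0 : 0 ≤ (k : ℝ) * w := by positivity
    refine ⟨by simp only; linarith, by simp only; linarith, h3, hxi, fun i => ?_⟩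
    obtain ⟨q1, q2, q3⟩ := hx i
    have hbi : b (c i) = α (c i) * σ + w := rfl
    refine ⟨q3, by simp only; rw [hbi] at q1; linarith, ?_⟩
    simp only
    have h4 := mul_le_mul_of_nonneg_right (hJ1 (c i)) hσ0.le
    have h5 : ((J (c i) : ℝ) + 1) * g * σ = J (c i) * w + w := by rw [hw]; ring
    rw [h5] at h4
    rw [hbi] at q2
    have h6 : (β (c i) - α (c i)) * σ = β (c i) * σ - α (c i) * σ := by ring
    linarith)
  refine le_trans ?_ hcount
  -- the truncated counts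
  set f0 : ℕ → ℝ := fun k => min (cnt F0 (A + k * w) (A + (k + 1) * w) : ℝ) K with hf0
  set f : Fin r → ℕ → ℝ := fun i k => ∑ j ∈ Finset.range (J i),
    min (cnt (F i) (A + (b i + j * w) + k * w) (A + (b i + j * w) + (k + 1) * w) : ℝ) K with hf
  have hfs : ∀ i, (J i : ℝ) * ((p0 - e) * (g * N)) ≤ ∑ k ∈ Finset.range N, f i k := by
    intro i
    simp only [hf]
    rw [Finset.sum_comm, ← nsmul_eq_mul, ← Finset.card_range (J i), ← Finset.sum_const,
      Finset.card_range]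
    apply Finset.sum_le_sum
    intro j hj
    rw [Finset.mem_range] at hj
    have hj1 : (j : ℝ) + 1 ≤ J i := by exact_mod_cast hj
    have hjw : 0 ≤ (j : ℝ) * w := by positivity
    have h1 := mul_le_mul_of_nonneg_right (hJ1 i) hσ0.le
    have h2 := mul_le_mul_of_nonneg_right hj1 hw0.le
    have h5 : ((J i : ℝ) + 1) * g * σ = J i * w + w := by rw [hw]; ring
    have h6 : (β i - α i) * σ = β i * σ - α i * σ := by ring
    have h7 : ((j : ℝ) + 1) * w = j * w + w := by ring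
    have hbi : b i = α i * σ + w := rfl
    refine hi i (b i + j * w) ?_ ?_
    · rw [hbi]; linarith
    · rw [hbi]; linarith
  have hf0a : ∀ k, 0 ≤ f0 k := fun k => le_min (Nat.cast_nonneg _) hK0.le
  have hf0b : ∀ k, f0 k ≤ K := fun k => min_le_right _ _
  have hfa : ∀ i k, 0 ≤ f i k := fun i k => Finset.sum_nonneg fun j _ =>
    le_min (Nat.cast_nonneg _) hK0.le
  have hfb : ∀ i k, f i k ≤ J i * K := by
    intro i k
    simp only [hf]
    calc _ ≤ ∑ j ∈ Finset.range (J i), K := Finset.sum_le_sum fun j _ => min_le_right _ _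
      _ = J i * K := by rw [Finset.sum_const, Finset.card_range, nsmul_eq_mul]
  have hfc : ∀ i k, f i k ≤ (cnt (F i) (A + b i + k * w) (A + b i + k * w + J i * w) : ℝ) := by
    intro i k
    have hkw : 0 ≤ (k : ℝ) * w := by positivity
    rw [cnt_split (hF i) (by linarith [hb0 i]) hw0.le]
    simp only [hf]
    apply Finset.sum_le_sum
    intro j _
    refine (min_le_left _ _).trans (le_of_eq ?_)
    congr 2 <;> ring
  -- the counts, diminished by `n`
  set y : Fin r → ℕ → ℝ := fun i k => max 0 (f i k - n) / (J i * K) with hy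
  have hy0 : ∀ i k, 0 ≤ y i k := fun i k => div_nonneg (le_max_left _ _) (hJK0 i).le
  have hy1 : ∀ i k, y i k ≤ 1 := by
    intro i k
    simp only [hy]
    rw [div_le_one (hJK0 i)]
    exact max_le (hJK0 i).le (by linarith [hfb i k, (Nat.cast_nonneg n : (0 : ℝ) ≤ n)])
  have hyc : ∀ i k, (J i : ℝ) * K * y i k ≤
      ((cnt (F i) (A + b i + k * w) (A + b i + k * w + J i * w) - n : ℕ) : ℝ) := by
    intro i k
    simp only [hy]
    rw [mul_div_cancel₀ _ (hJK0 i).ne']
    apply max_le (Nat.cast_nonneg _)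
    have h1 := hfc i k
    have h2 : (cnt (F i) (A + b i + k * w) (A + b i + k * w + J i * w) : ℝ) ≤
        ((cnt (F i) (A + b i + k * w) (A + b i + k * w + J i * w) - n : ℕ) : ℝ) + n := by
      have h3 : cnt (F i) (A + b i + k * w) (A + b i + k * w + J i * w) ≤
          (cnt (F i) (A + b i + k * w) (A + b i + k * w + J i * w) - n) + n := by omega
      exact_mod_cast h3
    linarith
  -- the product inequality in a cell
  set q1 : ℝ := K * ∏ i, ((J (c i) : ℝ) * K) with hq1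
  have hq10 : 0 ≤ q1 := mul_nonneg hK0.le (Finset.prod_nonneg fun i _ => (hJK0 (c i)).le)
  set u : ℕ → ℝ := fun k => max 0 (f0 k / K + ∑ j, y j k - r) with hu
  have hu0 : ∀ k, 0 ≤ u k := fun k => le_max_left _ _
  have hcellk : ∀ k, q1 * u k ^ m ≤
      (cnt F0 (A + k * w) (A + (k + 1) * w) : ℝ) *
      ∏ i, ((cnt (F (c i)) (A + b (c i) + k * w) (A + b (c i) + k * w + J (c i) * w) - n : ℕ) :
        ℝ) := by
    intro k
    have h1 := prod_mult c hc hm (x := f0 k / K) (div_nonneg (hf0a k) hK0.le)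
      ((div_le_one hK0).mpr (hf0b k)) (Y := fun j => y j k) (fun j => hy0 j k) (fun j => hy1 j k)
    calc q1 * u k ^ m ≤ q1 * (f0 k / K * ∏ i, y (c i) k) := mul_le_mul_of_nonneg_left h1 hq10
      _ = f0 k * ∏ i, ((J (c i) : ℝ) * K * y (c i) k) := by
        rw [hq1, Finset.prod_mul_distrib (f := fun i => (J (c i) : ℝ) * K)
          (g := fun i => y (c i) k)]
        have : K ≠ 0 := hK0.ne'
        field_simp
      _ ≤ _ := by
        apply mul_le_mul (min_le_left _ _) (Finset.prod_le_prod (fun i _ =>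
          mul_nonneg (hJK0 (c i)).le (hy0 (c i) k)) (fun i _ => hyc (c i) k))
          (Finset.prod_nonneg fun i _ => mul_nonneg (hJK0 (c i)).le (hy0 (c i) k))
          (Nat.cast_nonneg _)
  refine le_trans ?_ (Finset.sum_le_sum fun k _ => hcellk k)
  rw [← Finset.mul_sum]
  -- the sum over the cells
  set p : ℝ := (p0 - e) / ((1 + e) * κ) with hp
  have hpK : (p0 - e) * (g * N) = p * (N * K) := by
    rw [hp, hK]
    field_simp
  have hsum : Q * N ≤ ∑ k ∈ Finset.range N, u k := by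
    have h0' : ∑ k ∈ Finset.range N, (f0 k / K + ∑ j, y j k - r) ≤ ∑ k ∈ Finset.range N, u k :=
      Finset.sum_le_sum fun k _ => le_max_right _ _
    refine le_trans ?_ h0'
    rw [Finset.sum_sub_distrib, Finset.sum_add_distrib, Finset.sum_const, Finset.card_range,
      nsmul_eq_mul, Finset.sum_comm]
    have h1 : p * N ≤ ∑ k ∈ Finset.range N, f0 k / K := by
      rw [← Finset.sum_div, le_div_iff₀ hK0]
      refine le_trans (le_of_eq ?_) h0
      rw [hpK]; ring
    have h2 : ∀ i : Fin r, (p - e) * N ≤ ∑ k ∈ Finset.range N, y i k := by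
      intro i
      simp only [hy]
      rw [← Finset.sum_div, le_div_iff₀ (hJK0 i)]
      have h3 : ∑ k ∈ Finset.range N, (f i k - n) ≤ ∑ k ∈ Finset.range N, max 0 (f i k - n) :=
        Finset.sum_le_sum fun k _ => le_max_right _ _
      refine le_trans ?_ h3
      rw [Finset.sum_sub_distrib, Finset.sum_const, Finset.card_range, nsmul_eq_mul]
      have h4 := hfs i
      rw [hpK] at h4
      have h7 := mul_le_mul_of_nonneg_left (hJKn i) hNr.le
      linarith
    have h3 : (r : ℝ) * ((p - e) * N) ≤ ∑ i : Fin r, ∑ k ∈ Finset.range N, y i k := by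
      calc (r : ℝ) * ((p - e) * N) = ∑ _i : Fin r, (p - e) * N := by
            rw [Finset.sum_const, Finset.card_univ, Fintype.card_fin, nsmul_eq_mul]
        _ ≤ _ := Finset.sum_le_sum fun i _ => h2 i
    have h4 : Q * N ≤ p * N + r * ((p - e) * N) - N * r := by
      have h5 : p * N + r * ((p - e) * N) - N * r =
          (((r : ℝ) + 1) * p - r - r * e) * N := by ring
      rw [h5]
      exact mul_le_mul_of_nonneg_right hQ hNr.le
    linarith
  -- Jensen
  have hjen : N * Q ^ m ≤ ∑ k ∈ Finset.range N, u k ^ m := by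
    obtain ⟨m', rfl⟩ : ∃ m', m = m' + 1 := ⟨m - 1, by omega⟩
    have h1 := pow_sum_div_card_le_sum_pow (s := Finset.range N) (f := u) (fun k _ => hu0 k) m'
    refine le_trans ?_ h1
    rw [Finset.card_range, le_div_iff₀ (by positivity)]
    calc (N : ℝ) * Q ^ (m' + 1) * N ^ m' = (Q * N) ^ (m' + 1) := by ring
      _ ≤ _ := pow_le_pow_left₀ (by positivity) hsum _
  refine le_trans ?_ (mul_le_mul_of_nonneg_left hjen hq10)
  -- the final estimates
  set P : ℝ := ∏ i, (β (c i) - α (c i)) with hPP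
  have hP0 : 0 ≤ P := Finset.prod_nonneg fun i _ => by
    have := hL (c i)
    linarith
  have he1' : 0 ≤ 1 - e := by linarith
  have hprod : (1 - e) ^ n * P ≤ ∏ i, ((J (c i) : ℝ) * g) := by
    have h1 : (1 - e) ^ n * P = ∏ i, ((1 - e) * (β (c i) - α (c i))) := by
      rw [Finset.prod_mul_distrib, Finset.prod_const, Finset.card_univ, Fintype.card_fin]
    rw [h1]
    apply Finset.prod_le_prod
    · intro i _
      have := hL (c i)
      exact mul_nonneg he1' (by linarith)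
    · intro i _
      have h3 := hJ2 (c i)
      have h4 : 2 * g ≤ e * (β (c i) - α (c i)) := by
        have h5 : e * (2 * g / e) = 2 * g := by field_simp
        have h6 : e * (2 * g / e) ≤ e * (β (c i) - α (c i)) := by
          apply mul_le_mul_of_nonneg_left _ he0.le
          linarith [hL (c i)]
        linarith
      have h5 : (1 - e) * (β (c i) - α (c i)) = β (c i) - α (c i) - e * (β (c i) - α (c i)) := by
        ring
      rw [h5]
      linarith
  have hPJ : κ ^ n * ∏ i, ((J (c i) : ℝ) * g) ≤ ∏ i, ((J (c i) : ℝ) * K) := by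
    have h0' : ∏ _i : Fin n, κ = κ ^ n := by
      rw [Finset.prod_const, Finset.card_univ, Fintype.card_fin]
    rw [← h0', ← Finset.prod_mul_distrib]
    apply Finset.prod_le_prod
    · intro i _
      exact mul_nonneg hκ.le (mul_nonneg (Nat.cast_nonneg _) hg0.le)
    · intro i _
      calc κ * ((J (c i) : ℝ) * g) = (J (c i) : ℝ) * (κ * g) := by ring
        _ ≤ _ := mul_le_mul_of_nonneg_left hgK (Nat.cast_nonneg _)
  have hQm : 0 ≤ Q ^ m := pow_nonneg hQ0.le _
  have hPg0 : 0 ≤ ∏ i, ((J (c i) : ℝ) * g) := Finset.prod_nonneg fun i _ =>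
    mul_nonneg (Nat.cast_nonneg _) hg0.le
  calc Q ^ m * (κ ^ (n + 1) * (1 - e) ^ (n + 1)) * P * X =
        (Q ^ m * κ ^ (n + 1)) * ((1 - e) ^ n * P) * ((1 - e) * X) := by ring
    _ ≤ (Q ^ m * κ ^ (n + 1)) * (∏ i, ((J (c i) : ℝ) * g)) * (g * N) := by
        have h1 : 0 ≤ Q ^ m * κ ^ (n + 1) := by positivity
        exact mul_le_mul (mul_le_mul_of_nonneg_left hprod h1) hXN
          (mul_nonneg he1' hX) (mul_nonneg h1 hPg0)
    _ = Q ^ m * (κ ^ n * ∏ i, ((J (c i) : ℝ) * g)) * ((κ * g) * N) := by ring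
    _ ≤ Q ^ m * (∏ i, ((J (c i) : ℝ) * K)) * (K * N) := by
        apply mul_le_mul (mul_le_mul_of_nonneg_left hPJ hQm)
          (mul_le_mul_of_nonneg_right hgK hNr.le) (by positivity)
        exact mul_nonneg hQm (Finset.prod_nonneg fun i _ => (hJK0 (c i)).le)
    _ = q1 * (N * Q ^ m) := by rw [hq1]; ring

/-- the choice of `e` -/
theorem choose_e2 (n r m : ℕ) (hm : 1 ≤ m) {κ p0 : ℝ} (hκ : 0 < κ) {ε : ℝ} (hε : 0 < ε)
    (hεr : ε < ((r : ℝ) + 1) * (p0 / κ) - r) : ∃ e : ℝ, 0 < e ∧ e ≤ 1 ∧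
    0 < ((r : ℝ) + 1) * ((p0 - e) / ((1 + e) * κ)) - r - r * e ∧
    (((r : ℝ) + 1) * (p0 / κ) - r - ε) ^ m * κ ^ (n + 1) ≤
      (((r : ℝ) + 1) * ((p0 - e) / ((1 + e) * κ)) - r - r * e) ^ m *
        (κ ^ (n + 1) * (1 - e) ^ (n + 1)) := by
  set q : ℝ → ℝ := fun e => ((r : ℝ) + 1) * ((p0 - e) / ((1 + e) * κ)) - r - r * e with hq
  have hqc : ContinuousAt q 0 := by
    have : (1 + (0 : ℝ)) * κ ≠ 0 := by simpa using hκ.ne'
    simp only [hq]
    fun_prop (disch := assumption)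
  have hq0 : q 0 = ((r : ℝ) + 1) * (p0 / κ) - r := by
    simp only [hq]
    simp
  set f : ℝ → ℝ := fun e => q e * (1 - e) ^ (n + 1) with hf
  have hfc : ContinuousAt f 0 := by
    simp only [hf]
    exact hqc.mul (by fun_prop)
  have hf0 : f 0 = ((r : ℝ) + 1) * (p0 / κ) - r := by
    simp only [hf, hq0]
    simp
  have h1 : ∀ᶠ e : ℝ in 𝓝[>] 0, (((0 < e ∧ e < 1) ∧
      ((r : ℝ) + 1) * (p0 / κ) - r - ε < f e) ∧ 0 < q e) ∧
      ((r : ℝ) + 1) * (p0 / κ) - r - ε < q e := by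
    have e1 : ∀ᶠ x : ℝ in 𝓝[>] 0, 0 < x := self_mem_nhdsWithin
    have e2 : ∀ᶠ x : ℝ in 𝓝[>] 0, x < 1 := nhdsWithin_le_nhds (gt_mem_nhds one_pos)
    have e3 : ∀ᶠ x : ℝ in 𝓝[>] 0, ((r : ℝ) + 1) * (p0 / κ) - r - ε < f x :=
      nhdsWithin_le_nhds (hfc.eventually (lt_mem_nhds (by rw [hf0]; linarith)))
    have e4 : ∀ᶠ x : ℝ in 𝓝[>] 0, 0 < q x :=
      nhdsWithin_le_nhds (hqc.eventually (lt_mem_nhds (by rw [hq0]; linarith)))
    have e5 : ∀ᶠ x : ℝ in 𝓝[>] 0, ((r : ℝ) + 1) * (p0 / κ) - r - ε < q x :=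
      nhdsWithin_le_nhds (hqc.eventually (lt_mem_nhds (by rw [hq0]; linarith)))
    exact (((e1.and e2).and e3).and e4).and e5
  obtain ⟨e, ⟨⟨⟨h2, h3⟩, h4⟩, h5⟩, h6⟩ := h1.exists
  refine ⟨e, h2, h3.le, h5, ?_⟩
  have h7 : 0 ≤ ((r : ℝ) + 1) * (p0 / κ) - r - ε := by linarith
  have he0 : 0 ≤ 1 - e := by linarith
  have hκn : 0 < κ ^ (n + 1) := by positivity
  obtain ⟨m', rfl⟩ : ∃ m', m = m' + 1 := ⟨m - 1, by omega⟩
  have h8 : (((r : ℝ) + 1) * (p0 / κ) - r - ε) ^ m' ≤ (q e) ^ m' :=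
    pow_le_pow_left₀ h7 h6.le _
  have h9 : (((r : ℝ) + 1) * (p0 / κ) - r - ε) ^ (m' + 1) ≤ (q e) ^ (m' + 1) *
      (1 - e) ^ (n + 1) := by
    calc (((r : ℝ) + 1) * (p0 / κ) - r - ε) ^ (m' + 1) =
          (((r : ℝ) + 1) * (p0 / κ) - r - ε) ^ m' *
          (((r : ℝ) + 1) * (p0 / κ) - r - ε) := pow_succ _ _
      _ ≤ (q e) ^ m' * f e := mul_le_mul h8 h4.le h7 (pow_nonneg h5.le _)
      _ = (q e) ^ (m' + 1) * (1 - e) ^ (n + 1) := by simp only [hf]; ring
  calc (((r : ℝ) + 1) * (p0 / κ) - r - ε) ^ (m' + 1) * κ ^ (n + 1) ≤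
        ((q e) ^ (m' + 1) * (1 - e) ^ (n + 1)) * κ ^ (n + 1) :=
        mul_le_mul_of_nonneg_right h9 hκn.le
    _ = _ := by simp only [hq]; ring

end Pool.Agent.Y763.PS
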