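import Pool.Agent.Y763.PS.LevLower
import Pool.Agent.Y763.PS.BoxAlmost

/-!
# Tuples of distinct simple critical zeros in short intervals
-/

open Complex Filter Topology Set MeasureTheory
open scoped BigOperators ComplexConjugate ENNReal

namespace Pool.Agent.Y763.PS

open H370 Pool.Agent.TH342.CV

/-- every interval -/
theorem levels_every {n r m : ℕ} (c : Fin n → Fin r)
    (hc : ∀ j, (Finset.univ.filter (fun i => c i = j)).card ≤ m) (hm : 1 ≤ m)
    {h ε : ℝ} (hh : 0 < h) (hh1 : h ≤ 1) (hε : 0 < ε)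
    (hεr : ε < ((r : ℝ) + 1) * ((2 - H295Iso.c0 h) / h) - r) :
    ∃ L : ℝ, 0 < L ∧ ∃ d : ℝ, 0 < d ∧
    ∀ (F0 : ℂ → ℂ) (F : Fin r → ℂ → ℂ), GoodL F0 → (∀ j, GoodL (F j)) → ∃ T0 : ℝ, 10 ≤ T0 ∧
      ∀ T : ℝ, T0 ≤ T → ∀ H : ℝ, T ^ h ≤ H → H ≤ T → ∀ α β : Fin r → ℝ,
        (∀ j, 0 ≤ α j ∧ α j + L ≤ β j ∧ β j * (2 * Real.pi / Real.log T) ≤ T ^ (1 + d)) →
        (((r : ℝ) + 1) * ((2 - H295Iso.c0 h) / h) - r - ε) ^ m * h ^ (n + 1) *
          (∏ i, (β (c i) - α (c i))) * (H / (2 * Real.pi) * Real.log T) ≤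
          ((Lev F0 (fun i => F (c i)) T H (2 * Real.pi / Real.log T) (fun i => α (c i))
            (fun i => β (c i))).ncard : ℝ) := by
  classical
  have hpi := Real.pi_pos
  obtain ⟨e, he0, he1, heq, he⟩ := choose_e2 n r m hm hh hε hεr
  obtain ⟨g, hg0, d, hd0, hdh, hcore⟩ := avg_every hh hh1 he0 he1
  refine ⟨3 * g + 2 * g / e + n / (e * h), by positivity, d, hd0, fun F0 F hF0 hF => ?_⟩
  obtain ⟨T1, hT1, hc0⟩ := hcore F0 hF0
  choose T2 hT2 hci using fun i => hcore (F i) (hF i)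
  -- large `T`
  have htop : Tendsto (fun T : ℝ => T ^ d) atTop atTop := tendsto_rpow_atTop hd0
  obtain ⟨T3, hT3⟩ := (htop.eventually_ge_atTop 2).exists_forall_of_atTop
  have htop2 : Tendsto (fun T : ℝ => T ^ (h - d)) atTop atTop :=
    tendsto_rpow_atTop (by linarith)
  obtain ⟨T4, hT4⟩ := (htop2.eventually_ge_atTop
    (max (g * (2 * Real.pi)) (g * (2 * Real.pi) / e))).exists_forall_of_atTop
  set TS : ℝ := ∑ i, T2 i with hTS
  refine ⟨max (max T1 TS) (max (max T3 T4) 10), (le_max_right _ _).trans (le_max_right _ _),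
    fun T hTT H hH1 hH2 α β hαβ => ?_⟩
  have hTT1 : T1 ≤ T := ((le_max_left _ _).trans (le_max_left _ _)).trans hTT
  have hTTS : TS ≤ T := ((le_max_right _ _).trans (le_max_left _ _)).trans hTT
  have hTT2 : ∀ i, T2 i ≤ T := by
    intro i
    refine le_trans ?_ hTTS
    exact Finset.single_le_sum (f := T2) (fun j _ => by linarith [hT2 j]) (Finset.mem_univ i)
  have hTd := hT3 T ((((le_max_left _ _).trans (le_max_left _ _)).trans (le_max_right _ _)).trans
    hTT)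
  have hTd2 := hT4 T ((((le_max_right _ _).trans (le_max_left _ _)).trans (le_max_right _ _)).trans
    hTT)
  have hT10 : 10 ≤ T := ((le_max_right _ _).trans (le_max_right _ _)).trans hTT
  have hT0 : 0 < T := by linarith
  have hlog1 : 1 ≤ Real.log T := by
    rw [Real.le_log_iff_exp_le hT0]
    have := Real.exp_one_lt_d9
    linarith
  have hlog : 0 < Real.log T := by linarith
  set σ : ℝ := 2 * Real.pi / Real.log T with hσ
  have hσ0 : 0 < σ := by positivity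
  have hw0 : 0 < g * σ := by positivity
  have hwle : g * σ ≤ g * (2 * Real.pi) := by
    rw [hσ]
    apply mul_le_mul_of_nonneg_left _ hg0.le
    exact div_le_self (by positivity) hlog1
  have hH0 : 0 < H := (Real.rpow_pos_of_pos hT0 _).trans_le hH1
  have hpd : T ^ h = T ^ (h - d) * T ^ d := by
    rw [← Real.rpow_add hT0]; congr 1; ring
  have hHbig : 2 * T ^ (h - d) ≤ H := by
    refine le_trans ?_ hH1
    rw [hpd, mul_comm]
    exact mul_le_mul_of_nonneg_left hTd (Real.rpow_nonneg hT0.le _)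
  have hX1 : g * (2 * Real.pi) ≤ T ^ (h - d) := (le_max_left _ _).trans hTd2
  have hX2 : g * (2 * Real.pi) / e ≤ T ^ (h - d) := (le_max_right _ _).trans hTd2
  have hTp : 0 < T ^ (h - d) := Real.rpow_pos_of_pos hT0 _
  obtain ⟨N, hN1, hN2, hN3⟩ := cells_number (H := H) (e := e) hσ0 hg0 rfl (by
    rw [div_le_iff₀ he0] at hX2
    have h7 : e * (2 * T ^ (h - d)) ≤ e * H := mul_le_mul_of_nonneg_left hHbig he0.le
    have h8 : 0 ≤ e * T ^ (h - d) := mul_nonneg he0.le hTp.le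
    linarith) hH0.le
  have hX : H / (2 * Real.pi) * Real.log T = H / σ := by rw [hσ]; field_simp
  rw [hX]
  have hNT : T ^ (h - d) ≤ N * (g * σ) := by linarith
  have hNpos : 0 < N := by
    rcases Nat.eq_zero_or_pos N with h9 | h9
    · rw [h9] at hNT
      simp only [Nat.cast_zero, zero_mul] at hNT
      linarith
    · exact h9
  have hP0 : 0 ≤ ∏ i, (β (c i) - α (c i)) := Finset.prod_nonneg fun i _ => by
    have h1 := (hαβ (c i)).2.1
    have h2 : 0 < 3 * g + 2 * g / e + n / (e * h) := by positivity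
    linarith
  have hXX : 0 ≤ H / σ := by positivity
  refine le_trans (mul_le_mul_of_nonneg_right (mul_le_mul_of_nonneg_right he hP0) hXX) ?_
  refine lev_lower c hc hm hF0 hF (by linarith) hσ0 hg0 hh he0 he1 α β (fun i => (hαβ i).1)
    (fun i => (hαβ i).2.1) heq le_rfl N hNpos hN1 hXX hN3 ?_ ?_
  · have h := hc0 T hTT1 0 le_rfl (Real.rpow_nonneg hT0.le _) N hNT (hN1.trans hH2)
    simp only [add_zero] at h
    exact h
  · intro i b hb1 hb2
    have h0 : 0 ≤ α i * σ := mul_nonneg (hαβ i).1 hσ0.le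
    refine hci i T (hTT2 i) b (h0.trans hb1) ?_ N hNT (hN1.trans hH2)
    linarith [(hαβ i).2.2]

/-- almost all intervals -/
theorem levels_almost {n r m : ℕ} (c : Fin n → Fin r)
    (hc : ∀ j, (Finset.univ.filter (fun i => c i = j)).card ≤ m) (hm : 1 ≤ m)
    {η ε C : ℝ} (hη0 : 0 < η) (hη1 : η < 1) (hε : 0 < ε)
    (hC : 0 ≤ C)
    (hεr : ε < ((r : ℝ) + 1) * ((2 - H295Iso.c0 ((1 + η) / 2)) / ((1 + η) / 2)) - r) :
    ∃ L : ℝ, 0 < L ∧
    ∀ (F0 : ℂ → ℂ) (F : Fin r → ℂ → ℂ), GoodL F0 → Alm F0 → (∀ i, GoodL (F i)) →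
      (∀ i, Alm (F i)) → ∃ δ : ℝ, 0 < δ ∧ ∃ T0 : ℝ, 10 ≤ T0 ∧ ∀ T : ℝ, T0 ≤ T →
      volume {t : ℝ | T ≤ t ∧ t ≤ 2 * T ∧ ¬ ∀ H : ℝ, T ^ η ≤ H → H ≤ T / 8 →
        ∀ α β : Fin r → ℝ, (∀ i, 0 ≤ α i ∧ α i + L ≤ β i ∧
          β i * (2 * Real.pi / Real.log T) ≤ C * H ∧ β i * (2 * Real.pi / Real.log T) ≤ T) →
        (((r : ℝ) + 1) * ((2 - H295Iso.c0 ((1 + η) / 2)) / ((1 + η) / 2)) - r - ε) ^ m *
          ((1 + η) / 2) ^ (n + 1) *
          (∏ i, (β (c i) - α (c i))) * (H / (2 * Real.pi) * Real.log T) ≤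
          ((Lev F0 (fun i => F (c i)) t H (2 * Real.pi / Real.log T) (fun i => α (c i))
            (fun i => β (c i))).ncard : ℝ)} ≤
        ENNReal.ofReal (T ^ (1 - δ)) := by
  classical
  have hpi := Real.pi_pos
  set lam : ℝ := (1 + η) / 2 with hlam
  have hlam0 : 0 < lam := by positivity
  obtain ⟨e, he0, he1, heq, he⟩ := choose_e2 n r m hm hlam0 hε hεr
  obtain ⟨g, hg0, hcore⟩ := avg_almost hη0 hη1 he0 he1 (C := 2 * C) (by linarith)
  refine ⟨3 * g + 2 * g / e + n / (e * lam), by positivity, fun F0 F hF0 hA0 hF hA => ?_⟩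
  obtain ⟨δ0, hδ0, T1, hT1, h0⟩ := hcore F0 hF0 hA0
  choose δ1 hδ1 T2 hT2 h1 using fun i => hcore (F i) (hF i) (hA i)
  -- the common exponent
  obtain ⟨δ, hδ, hδ0', hδ1'⟩ : ∃ δ : ℝ, 0 < δ ∧ δ ≤ δ0 ∧ ∀ i, δ ≤ δ1 i := by
    have h2 : ∃ δ : ℝ, 0 < δ ∧ ∀ i, δ ≤ δ1 i := by
      rcases isEmpty_or_nonempty (Fin r) with h3 | h3
      · exact ⟨1, one_pos, fun i => (h3.false i).elim⟩
      · obtain ⟨i0, hi0⟩ := Finite.exists_min δ1
        exact ⟨δ1 i0, hδ1 i0, hi0⟩
    obtain ⟨δ, hδ, hδi⟩ := h2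
    exact ⟨min δ δ0, lt_min hδ hδ0, min_le_right _ _, fun i => (min_le_left _ _).trans (hδi i)⟩
  have hn0 : (0 : ℝ) ≤ r := Nat.cast_nonneg r
  -- large `T`
  have ev1 : ∀ᶠ T : ℝ in atTop, (r : ℝ) + 1 ≤ T ^ (δ / 2) :=
    (tendsto_rpow_atTop (by positivity)).eventually_ge_atTop _
  have ev2 : ∀ᶠ T : ℝ in atTop, max (2 * (g * (2 * Real.pi))) (g * (2 * Real.pi) / e) ≤ T ^ η :=
    (tendsto_rpow_atTop hη0).eventually_ge_atTop _
  obtain ⟨T3, hT3⟩ := (ev1.and ev2).exists_forall_of_atTop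
  set TS : ℝ := ∑ i, T2 i with hTS
  refine ⟨δ / 2, by positivity, max (max T1 TS) (max T3 10),
    (le_max_right _ _).trans (le_max_right _ _), fun T hTT => ?_⟩
  have hTT1 : T1 ≤ T := ((le_max_left _ _).trans (le_max_left _ _)).trans hTT
  have hTTS : TS ≤ T := ((le_max_right _ _).trans (le_max_left _ _)).trans hTT
  have hTT2 : ∀ i, T2 i ≤ T := by
    intro i
    refine le_trans ?_ hTTS
    exact Finset.single_le_sum (f := T2) (fun j _ => by linarith [hT2 j]) (Finset.mem_univ i)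
  obtain ⟨e1, e2⟩ := hT3 T (((le_max_left _ _).trans (le_max_right _ _)).trans hTT)
  have hT10 : 10 ≤ T := ((le_max_right _ _).trans (le_max_right _ _)).trans hTT
  have hT0 : 0 < T := by linarith
  have hlog1 : 1 ≤ Real.log T := by
    rw [Real.le_log_iff_exp_le hT0]
    have := Real.exp_one_lt_d9
    linarith
  have hlog : 0 < Real.log T := by linarith
  obtain ⟨E0, hE0, hE0'⟩ := h0 T hTT1
  choose E1 hE1 hE1' using fun i => h1 i T (hTT2 i)
  have hpow : ∀ x : ℝ, δ ≤ x → ENNReal.ofReal (T ^ (1 - x)) ≤ ENNReal.ofReal (T ^ (1 - δ)) := by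
    intro x hx
    apply ENNReal.ofReal_le_ofReal
    exact Real.rpow_le_rpow_of_exponent_le (by linarith) (by linarith)
  have hmeas : volume (E0 ∪ ⋃ i, E1 i) ≤ ENNReal.ofReal (T ^ (1 - δ / 2)) := by
    refine (measure_union_le _ _).trans ((add_le_add (hE0.trans (hpow _ hδ0'))
      (measure_iUnion_fintype_le _ _)).trans ((add_le_add le_rfl (Finset.sum_le_sum
      fun i _ => (hE1 i).trans (hpow _ (hδ1' i)))).trans ?_))
    rw [Finset.sum_const, Finset.card_univ, Fintype.card_fin, nsmul_eq_mul,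
      ← ENNReal.ofReal_natCast, ← ENNReal.ofReal_mul (Nat.cast_nonneg _),
      ← ENNReal.ofReal_add (by positivity) (by positivity)]
    apply ENNReal.ofReal_le_ofReal
    calc T ^ (1 - δ) + r * T ^ (1 - δ) = ((r : ℝ) + 1) * T ^ (1 - δ) := by ring
      _ ≤ T ^ (δ / 2) * T ^ (1 - δ) := mul_le_mul_of_nonneg_right e1 (by positivity)
      _ = T ^ (1 - δ / 2) := by rw [← Real.rpow_add hT0]; congr 1; ring
  refine (measure_mono ?_).trans hmeas
  rintro t ⟨ht1, ht2, ht3⟩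
  by_contra htE
  rw [mem_union, not_or, mem_iUnion, not_exists] at htE
  obtain ⟨htE0, htE1⟩ := htE
  apply ht3
  intro H hH1 hH2 α β hαβ
  set σ : ℝ := 2 * Real.pi / Real.log T with hσ
  have hσ0 : 0 < σ := by positivity
  have hw0 : 0 < g * σ := by positivity
  have hwle : g * σ ≤ g * (2 * Real.pi) := by
    rw [hσ]
    apply mul_le_mul_of_nonneg_left _ hg0.le
    exact div_le_self (by positivity) hlog1
  have hTη : 0 < T ^ η := Real.rpow_pos_of_pos hT0 _
  have hH0 : 0 < H := hTη.trans_le hH1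
  have hX1 : 2 * (g * (2 * Real.pi)) ≤ T ^ η := (le_max_left _ _).trans e2
  have hX2 : g * (2 * Real.pi) / e ≤ T ^ η := (le_max_right _ _).trans e2
  obtain ⟨N, hN1, hN2, hN3⟩ := cells_number (H := H) (e := e) hσ0 hg0 rfl (by
    rw [div_le_iff₀ he0] at hX2
    have h7 : e * T ^ η ≤ e * H := mul_le_mul_of_nonneg_left hH1 he0.le
    linarith) hH0.le
  have hX : H / (2 * Real.pi) * Real.log T = H / σ := by rw [hσ]; field_simp
  rw [hX]
  have hNH : H ≤ 2 * (N * (g * σ)) := by linarith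
  have hNT : T ^ η / 2 ≤ N * (g * σ) := by linarith
  have hNpos : 0 < N := by
    rcases Nat.eq_zero_or_pos N with h9 | h9
    · rw [h9] at hNT
      simp only [Nat.cast_zero, zero_mul] at hNT
      linarith
    · exact h9
  have hP0 : 0 ≤ ∏ i, (β (c i) - α (c i)) := Finset.prod_nonneg fun i _ => by
    have h1 := (hαβ (c i)).2.1
    have h2 : 0 < 3 * g + 2 * g / e + n / (e * lam) := by positivity
    linarith
  have hXX : 0 ≤ H / σ := by positivity
  refine le_trans (mul_le_mul_of_nonneg_right (mul_le_mul_of_nonneg_right he hP0) hXX) ?_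
  refine lev_lower c hc hm hF0 hF (by linarith) hσ0 hg0 hlam0 he0 he1 α β (fun i => (hαβ i).1)
    (fun i => (hαβ i).2.1) heq le_rfl N hNpos hN1 hXX hN3 ?_ ?_
  · have h := hE0' t ht1 ht2 htE0 0 le_rfl N hNT (by positivity) (by linarith)
    simp only [add_zero] at h
    exact h
  · intro i b hb1 hb2
    have h2 : 0 ≤ α i * σ := mul_nonneg (hαβ i).1 hσ0.le
    refine hE1' i t ht1 ht2 (htE1 i) b (h2.trans hb1) N hNT ?_ ?_
    · have h3 : C * H ≤ C * (2 * (N * (g * σ))) := mul_le_mul_of_nonneg_left hNH hC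
      have h4 := (hαβ i).2.2.1
      linarith
    · have h4 := (hαβ i).2.2.2
      linarith

end Pool.Agent.Y763.PS
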