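import Pool.Agent.Y763.PS.Every

/-!
# From the truncated counts to the number of tuples
-/

open Complex Filter Topology Set MeasureTheory
open scoped BigOperators ComplexConjugate

namespace Pool.Agent.Y763.PS

open H370 Pool.Agent.TH342.CV

/-- the product inequality -/
theorem boxes_abs {n : ℕ} {F0 : ℂ → ℂ} {F : Fin n → ℂ → ℂ} (hF : ∀ i, GoodL (F i))
    {A w K p : ℝ} (hA : 1 ≤ A) (hw0 : 0 < w) (hK0 : 0 < K) (N : ℕ) (b : Fin n → ℝ)
    (hb : ∀ i, 0 ≤ b i) (J : Fin n → ℕ) (hJ : ∀ i, (1 : ℝ) ≤ J i)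
    (h0 : p * (K * N) ≤ ∑ k ∈ Finset.range N, min (cnt F0 (A + k * w) (A + (k + 1) * w) : ℝ) K)
    (hi : ∀ i, ∀ j : ℕ, j < J i → p * (K * N) ≤ ∑ k ∈ Finset.range N,
      min (cnt (F i) (A + (b i + j * w) + k * w) (A + (b i + j * w) + (k + 1) * w) : ℝ) K) :
    (K * ∏ i, ((J i : ℝ) * K)) * ((((n : ℝ) + 1) * p - n) * N) ≤ ∑ k ∈ Finset.range N,
      (cnt F0 (A + k * w) (A + (k + 1) * w) : ℝ) *
      ∏ i, (cnt (F i) (A + b i + k * w) (A + b i + k * w + J i * w) : ℝ) := by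
  classical
  set f0 : ℕ → ℝ := fun k => min (cnt F0 (A + k * w) (A + (k + 1) * w) : ℝ) K with hf0
  set f : Fin n → ℕ → ℝ := fun i k => ∑ j ∈ Finset.range (J i),
    min (cnt (F i) (A + (b i + j * w) + k * w) (A + (b i + j * w) + (k + 1) * w) : ℝ) K with hf
  have hfs : ∀ i, (J i : ℝ) * (p * (K * N)) ≤ ∑ k ∈ Finset.range N, f i k := by
    intro i
    simp only [hf]
    rw [Finset.sum_comm, ← nsmul_eq_mul, ← Finset.card_range (J i), ← Finset.sum_const,
      Finset.card_range]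
    apply Finset.sum_le_sum
    intro j hj
    rw [Finset.mem_range] at hj
    exact hi i j hj
  have hf0a : ∀ k, 0 ≤ f0 k := fun k => le_min (Nat.cast_nonneg _) hK0.le
  have hf0b : ∀ k, f0 k ≤ K := fun k => min_le_right _ _
  have hfa : ∀ i k, 0 ≤ f i k := fun i k => Finset.sum_nonneg fun j _ =>
    le_min (Nat.cast_nonneg _) hK0.le
  have hfb : ∀ i k, f i k ≤ J i * K := by
    intro i k
    simp only [hf]
    calc _ ≤ ∑ j ∈ Finset.range (J i), K := Finset.sum_le_sum fun j _ => min_le_right _ _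
      _ = J i * K := by rw [Finset.sum_const, Finset.card_range, nsmul_eq_mul]
  have hfc : ∀ i k, f i k ≤ (cnt (F i) (A + b i + k * w) (A + b i + k * w + J i * w) : ℝ) := by
    intro i k
    have hkw : 0 ≤ (k : ℝ) * w := by positivity
    rw [cnt_split (hF i) (by linarith [hb i]) hw0.le]
    simp only [hf]
    apply Finset.sum_le_sum
    intro j _
    refine (min_le_left _ _).trans (le_of_eq ?_)
    congr 2 <;> ring
  have hJK0 : ∀ i, 0 < (J i : ℝ) * K := fun i => mul_pos (by linarith [hJ i]) hK0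
  -- the product inequality in a cell
  set q1 : ℝ := K * ∏ i, ((J i : ℝ) * K) with hq1
  have hq10 : 0 ≤ q1 := mul_nonneg hK0.le (Finset.prod_nonneg fun i _ => (hJK0 i).le)
  have hcellk : ∀ k, q1 * (f0 k / K + ∑ i, f i k / (J i * K) - n) ≤
      (cnt F0 (A + k * w) (A + (k + 1) * w) : ℝ) *
      ∏ i, (cnt (F i) (A + b i + k * w) (A + b i + k * w + J i * w) : ℝ) := by
    intro k
    have h1 := weier (Finset.univ : Finset (Fin n)) (fun i => f i k / (J i * K))
      (fun i _ => div_nonneg (hfa i k) (hJK0 i).le)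
      (fun i _ => (div_le_one (hJK0 i)).mpr (hfb i k))
    obtain ⟨w1, w2, w3⟩ := h1
    rw [Finset.card_univ, Fintype.card_fin] at w1
    have h0a : 0 ≤ f0 k / K := div_nonneg (hf0a k) hK0.le
    have h0b : f0 k / K ≤ 1 := (div_le_one hK0).mpr (hf0b k)
    have h2 : f0 k / K + ∑ i, f i k / (J i * K) - n ≤ f0 k / K * ∏ i, (f i k / (J i * K)) := by
      nlinarith [mul_nonneg (sub_nonneg.mpr h0b) (sub_nonneg.mpr w2)]
    have h3 : q1 * (f0 k / K * ∏ i, (f i k / (J i * K))) = f0 k * ∏ i, f i k := by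
      rw [hq1, Finset.prod_div_distrib]
      have h4 : ∏ i, ((J i : ℝ) * K) ≠ 0 := Finset.prod_ne_zero_iff.mpr fun i _ => (hJK0 i).ne'
      revert h4
      generalize ∏ i, ((J i : ℝ) * K) = Q
      intro h4
      field_simp
    calc q1 * (f0 k / K + ∑ i, f i k / (J i * K) - n) ≤
          q1 * (f0 k / K * ∏ i, (f i k / (J i * K))) := mul_le_mul_of_nonneg_left h2 hq10
      _ = f0 k * ∏ i, f i k := h3
      _ ≤ _ := by
        apply mul_le_mul (min_le_left _ _) (Finset.prod_le_prod (fun i _ => hfa i k)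
          (fun i _ => hfc i k)) (Finset.prod_nonneg fun i _ => hfa i k) (Nat.cast_nonneg _)
  refine le_trans ?_ (Finset.sum_le_sum fun k _ => hcellk k)
  rw [← Finset.mul_sum]
  refine mul_le_mul_of_nonneg_left ?_ hq10
  rw [Finset.sum_sub_distrib, Finset.sum_add_distrib, Finset.sum_const, Finset.card_range,
    nsmul_eq_mul, Finset.sum_comm]
  have h1 : p * N ≤ ∑ k ∈ Finset.range N, f0 k / K := by
    rw [← Finset.sum_div, le_div_iff₀ hK0]
    refine le_trans (le_of_eq ?_) h0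
    ring
  have h2 : ∀ i : Fin n, p * N ≤ ∑ k ∈ Finset.range N, f i k / (J i * K) := by
    intro i
    rw [← Finset.sum_div, le_div_iff₀ (hJK0 i)]
    refine le_trans (le_of_eq ?_) (hfs i)
    ring
  have h3 : (n : ℝ) * (p * N) ≤ ∑ i : Fin n, ∑ k ∈ Finset.range N, f i k / (J i * K) := by
    calc (n : ℝ) * (p * N) = ∑ _i : Fin n, p * N := by
          rw [Finset.sum_const, Finset.card_univ, Fintype.card_fin, nsmul_eq_mul]
      _ ≤ _ := Finset.sum_le_sum fun i _ => h2 i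
  have h4 : (((n : ℝ) + 1) * p - n) * N = p * N + n * (p * N) - N * n := by ring
  rw [h4]
  linarith

/-- the number of tuples, from the truncated counts -/
theorem box_lower {n : ℕ} {F0 : ℂ → ℂ} {F : Fin n → ℂ → ℂ} (hF0 : GoodL F0)
    (hF : ∀ i, GoodL (F i)) {A H σ g κ e p0 X t : ℝ} (hA : 1 ≤ A) (hσ0 : 0 < σ) (hg0 : 0 < g)
    (hκ : 0 < κ) (he0 : 0 < e) (he1 : e ≤ 1) (α β : Fin n → ℝ) (hα : ∀ i, 0 ≤ α i)
    (hL : ∀ i, α i + (3 * g + 2 * g / e) ≤ β i)
    (ht : t ≤ (((n : ℝ) + 1) * (p0 - e) * (κ ^ n * (1 + e) ^ n) -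
      n * (κ ^ (n + 1) * (1 + e) ^ (n + 1))) * (1 - e) ^ (n + 1))
    (N : ℕ) (hN : N * (g * σ) ≤ H) (hX : 0 ≤ X) (hXN : (1 - e) * X ≤ g * N)
    (h0 : (p0 - e) * (g * N) ≤ ∑ k ∈ Finset.range N,
      min (cnt F0 (A + k * (g * σ)) (A + (k + 1) * (g * σ)) : ℝ) ((1 + e) * (κ * g)))
    (hi : ∀ i, ∀ b : ℝ, α i * σ ≤ b → b + g * σ ≤ β i * σ → (p0 - e) * (g * N) ≤
      ∑ k ∈ Finset.range N, min (cnt (F i) (A + b + k * (g * σ)) (A + b + (k + 1) * (g * σ)) : ℝ)
        ((1 + e) * (κ * g))) :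
    t * (∏ i, (β i - α i)) * X ≤ ((Box F0 F A H σ α β).ncard : ℝ) := by
  classical
  set w : ℝ := g * σ with hw
  have hw0 : 0 < w := by positivity
  set K : ℝ := (1 + e) * (κ * g) with hK
  have hK0 : 0 < K := by rw [hK]; positivity
  set P : ℝ := ∏ i, (β i - α i) with hP
  have hge : 0 < 2 * g / e := by positivity
  have hP0 : 0 ≤ P := Finset.prod_nonneg fun i _ => by
    have := hL i
    linarith
  rcases le_or_gt t 0 with htn | htp
  · exact (mul_nonpos_of_nonpos_of_nonneg (mul_nonpos_of_nonpos_of_nonneg htn hP0) hX).trans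
      (Nat.cast_nonneg _)
  set b : Fin n → ℝ := fun i => α i * σ + w with hb
  have hb0 : ∀ i, 0 ≤ b i := fun i => by
    have := mul_nonneg (hα i) hσ0.le
    simp only [hb]; linarith
  set J : Fin n → ℕ := fun i => ⌊(β i - α i) / g⌋₊ - 1 with hJ
  have hfl : ∀ i, 3 ≤ ⌊(β i - α i) / g⌋₊ := by
    intro i
    apply Nat.le_floor
    rw [le_div_iff₀ hg0]
    have := hL i
    push_cast
    linarith
  have hJ1 : ∀ i, ((J i : ℝ) + 1) * g ≤ β i - α i := by
    intro i
    have h1 : (J i : ℝ) + 1 = ⌊(β i - α i) / g⌋₊ := by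
      have h2 : J i + 1 = ⌊(β i - α i) / g⌋₊ := by
        have := hfl i
        simp only [hJ]; omega
      exact_mod_cast congrArg (Nat.cast : ℕ → ℝ) h2
    rw [h1, ← le_div_iff₀ hg0]
    apply Nat.floor_le
    apply div_nonneg _ hg0.le
    have := hL i
    linarith
  have hJ2 : ∀ i, β i - α i - 2 * g ≤ (J i : ℝ) * g := by
    intro i
    have h1 : (J i : ℝ) + 1 = ⌊(β i - α i) / g⌋₊ := by
      have h2 : J i + 1 = ⌊(β i - α i) / g⌋₊ := by
        have := hfl i
        simp only [hJ]; omega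
      exact_mod_cast congrArg (Nat.cast : ℕ → ℝ) h2
    have h3 := Nat.lt_floor_add_one ((β i - α i) / g)
    rw [← h1, div_lt_iff₀ hg0] at h3
    have h4 : ((J i : ℝ) + 1 + 1) * g = J i * g + 2 * g := by ring
    linarith
  have hJpos : ∀ i, (1 : ℝ) ≤ J i := by
    intro i
    have h2 : 1 ≤ J i := by
      have := hfl i
      simp only [hJ]; omega
    exact_mod_cast h2
  -- the counting
  have hcount := box_count (n := n) (F0 := F0) (F := F) (T := A) hw0 N b J
    (box_finite hF0 hF (T := A) (H := H) (σ := σ) (α := α) (β := β) hA hσ0.le hα) (by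
    intro k hk x0 h1 h2 h3 x hx
    have hk1 : (k : ℝ) + 1 ≤ N := by exact_mod_cast hk
    have hkw := mul_le_mul_of_nonneg_right hk1 hw0.le
    have hkk : ((k : ℝ) + 1) * w = k * w + w := by ring
    have hk0 : 0 ≤ (k : ℝ) * w := by positivity
    refine ⟨by simp only; linarith, by simp only; linarith, h3, fun i => ?_⟩
    obtain ⟨q1, q2, q3⟩ := hx i
    have hbi : b i = α i * σ + w := rfl
    refine ⟨q3, by simp only; rw [hbi] at q1; linarith, ?_⟩
    simp only
    have h4 := mul_le_mul_of_nonneg_right (hJ1 i) hσ0.le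
    have h5 : ((J i : ℝ) + 1) * g * σ = J i * w + w := by rw [hw]; ring
    rw [h5] at h4
    rw [hbi] at q2
    have h6 : (β i - α i) * σ = β i * σ - α i * σ := by ring
    linarith)
  refine le_trans ?_ hcount
  set p : ℝ := (p0 - e) / ((1 + e) * κ) with hp
  have hpK : p * (K * N) = (p0 - e) * (g * N) := by
    rw [hp, hK]
    field_simp
  have hmain := boxes_abs (F0 := F0) hF hA hw0 hK0 N b hb0 J hJpos (p := p) (by rw [hpK]; exact h0)
    (by
      intro i j hj
      rw [hpK]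
      have hj1 : (j : ℝ) + 1 ≤ J i := by exact_mod_cast hj
      have hjw : 0 ≤ (j : ℝ) * w := by positivity
      have h1 := mul_le_mul_of_nonneg_right (hJ1 i) hσ0.le
      have h2 := mul_le_mul_of_nonneg_right hj1 hw0.le
      have h5 : ((J i : ℝ) + 1) * g * σ = J i * w + w := by rw [hw]; ring
      have h6 : (β i - α i) * σ = β i * σ - α i * σ := by ring
      have h7 : ((j : ℝ) + 1) * w = j * w + w := by ring
      have hbi : b i = α i * σ + w := rfl
      refine hi i (b i + j * w) ?_ ?_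
      · rw [hbi]; linarith
      · rw [hbi]; linarith)
  refine le_trans ?_ hmain
  -- the final estimates
  have he1' : 0 ≤ 1 - e := by linarith
  set B : ℝ := ((n : ℝ) + 1) * (p0 - e) * (κ ^ n * (1 + e) ^ n) -
      n * (κ ^ (n + 1) * (1 + e) ^ (n + 1)) with hB
  have hB0 : 0 ≤ B := by
    by_contra hcon
    push Not at hcon
    have : B * (1 - e) ^ (n + 1) ≤ 0 :=
      mul_nonpos_of_nonpos_of_nonneg hcon.le (pow_nonneg he1' _)
    linarith
  have hprod : (1 - e) ^ n * P ≤ ∏ i, ((J i : ℝ) * g) := by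
    have h1 : (1 - e) ^ n * P = ∏ i, ((1 - e) * (β i - α i)) := by
      rw [Finset.prod_mul_distrib, Finset.prod_const, Finset.card_univ, Fintype.card_fin]
    rw [h1]
    apply Finset.prod_le_prod
    · intro i _
      have := hL i
      exact mul_nonneg he1' (by linarith)
    · intro i _
      have h3 := hJ2 i
      have h4 : 2 * g ≤ e * (β i - α i) := by
        have h5 : e * (2 * g / e) = 2 * g := by field_simp
        have h6 : e * (2 * g / e) ≤ e * (β i - α i) := by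
          apply mul_le_mul_of_nonneg_left _ he0.le
          linarith [hL i]
        linarith
      have h5 : (1 - e) * (β i - α i) = β i - α i - e * (β i - α i) := by ring
      rw [h5]
      linarith
  have hPJ : (K * ∏ i, ((J i : ℝ) * K)) * ((((n : ℝ) + 1) * p - n) * N) =
      B * (∏ i, ((J i : ℝ) * g)) * (g * N) := by
    have h1 : ∏ i, ((J i : ℝ) * K) = ((1 + e) * κ) ^ n * ∏ i, ((J i : ℝ) * g) := by
      have h0' : ∏ _i : Fin n, ((1 + e) * κ) = ((1 + e) * κ) ^ n := by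
        rw [Finset.prod_const, Finset.card_univ, Fintype.card_fin]
      rw [← h0', ← Finset.prod_mul_distrib]
      apply Finset.prod_congr rfl
      intro i _
      rw [hK]; ring
    have h2 : (1 + e) * κ * p = p0 - e := by
      rw [hp]; field_simp
    rw [h1, hK, hB]
    have h3 : (1 + e) * (κ * g) * (((1 + e) * κ) ^ n * ∏ i, ((J i : ℝ) * g)) *
        ((((n : ℝ) + 1) * p - n) * N) = (((n : ℝ) + 1) * ((1 + e) * κ * p) * ((1 + e) * κ) ^ n -
        n * ((1 + e) * κ) ^ (n + 1)) * (∏ i, ((J i : ℝ) * g)) * (g * N) := by ring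
    rw [h3, h2, mul_pow, mul_pow]
    ring
  rw [hPJ]
  calc t * P * X ≤ (B * (1 - e) ^ (n + 1)) * P * X :=
        mul_le_mul_of_nonneg_right (mul_le_mul_of_nonneg_right ht hP0) hX
    _ = B * ((1 - e) ^ n * P) * ((1 - e) * X) := by ring
    _ ≤ B * (∏ i, ((J i : ℝ) * g)) * (g * N) := by
        apply mul_le_mul (mul_le_mul_of_nonneg_left hprod hB0) hXN (mul_nonneg he1' hX)
        exact mul_nonneg hB0 (Finset.prod_nonneg fun i _ =>
          mul_nonneg (Nat.cast_nonneg _) hg0.le)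

/-- the choice of `e` -/
theorem choose_e (n : ℕ) (κ p0 : ℝ) {ε : ℝ} (hε : 0 < ε) : ∃ e : ℝ, 0 < e ∧ e ≤ 1 ∧
    ((n : ℝ) + 1) * p0 * κ ^ n - n * κ ^ (n + 1) - ε ≤
      (((n : ℝ) + 1) * (p0 - e) * (κ ^ n * (1 + e) ^ n) -
      n * (κ ^ (n + 1) * (1 + e) ^ (n + 1))) * (1 - e) ^ (n + 1) := by
  set f : ℝ → ℝ := fun e => (((n : ℝ) + 1) * (p0 - e) * (κ ^ n * (1 + e) ^ n) -
      n * (κ ^ (n + 1) * (1 + e) ^ (n + 1))) * (1 - e) ^ (n + 1) with hf
  have hc : Continuous f := by rw [hf]; fun_prop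
  have hf0 : f 0 = ((n : ℝ) + 1) * p0 * κ ^ n - n * κ ^ (n + 1) := by
    simp only [hf]
    ring_nf
  have h1 : ∀ᶠ e : ℝ in 𝓝[>] 0, (0 < e ∧ e < 1) ∧
      ((n : ℝ) + 1) * p0 * κ ^ n - n * κ ^ (n + 1) - ε < f e := by
    have e1 : ∀ᶠ x : ℝ in 𝓝[>] 0, 0 < x := self_mem_nhdsWithin
    have e2 : ∀ᶠ x : ℝ in 𝓝[>] 0, x < 1 := nhdsWithin_le_nhds (gt_mem_nhds one_pos)
    have e3 : ∀ᶠ x : ℝ in 𝓝[>] 0, ((n : ℝ) + 1) * p0 * κ ^ n - n * κ ^ (n + 1) - ε < f x :=
      nhdsWithin_le_nhds (hc.continuousAt.eventually (lt_mem_nhds (by rw [hf0]; linarith)))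
    exact (e1.and e2).and e3
  obtain ⟨e, ⟨h2, h3⟩, h4⟩ := h1.exists
  exact ⟨e, h2, h3.le, h4.le⟩

end Pool.Agent.Y763.PS
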